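import Pool.Agent.P8H15.BR.Lat

/-!
# Congruent Gram matrices give the same class modulo squares
-/

set_option autoImplicit false
set_option linter.all false

open Polynomial Matrix NumberField IsDedekindDomain
open scoped Classical

namespace Pool.Agent.P8H15.BR

open Pool.Agent.N783.PF
open Pool.Agent.N352.PJ (Mt Typ dd)
open Pool.Agent.N783.PQ (chp form Dist Gap Mid Deep eA eB eU uu)
open Pool.Agent.N438.PF

section cls

variable {F L : Type} [Field F] [NumberField F] [Field L] [NumberField L] [Algebra F L]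
variable {g : ℕ} {f : (𝓞 F)[X]} {θ : L}

theorem nondeg (hG : IsGen g f θ) (y : L) (h : ∀ z : L, hG.top (z * y) = 0) : y = 0 := by
  have h1 := const_of_top hG y (fun m _ => h _)
  rw [h, map_zero] at h1
  exact h1

theorem nondeg2 (hG : IsGen g f θ) {α : L} (hα : α ≠ 0) (y : L)
    (h : ∀ z : L, hG.top (z * y / α) = 0) : y = 0 := by
  refine nondeg hG y fun z => ?_
  have := h (α * z)
  have e : α * z * y / α = z * y := by field_simp
  rwa [e] at this

/-- the form as a linear map -/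
noncomputable def Tm (hG : IsGen g f θ) (α : L) : L →ₗ[F] F :=
  hG.top ∘ₗ LinearMap.mulLeft F α⁻¹

theorem Tm_apply (hG : IsGen g f θ) (α z : L) : Tm hG α z = hG.top (z / α) := by
  unfold Tm
  rw [LinearMap.comp_apply, LinearMap.mulLeft_apply, div_eq_inv_mul]

theorem sum_form (hG : IsGen g f θ) {α : L} {M : Mt g F} {e : Fin (2 * g + 1) → L} {t : L}
    (hM : ∀ i j, M i j = Tm hG α (t * (e i * e j))) (U : Mt g F) (i j : Fin (2 * g + 1)) :
    Tm hG α (t * ((∑ k, U k i • e k) * (∑ l, U l j • e l))) = (Uᵀ * M * U) i j := by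
  rw [Matrix.mul_apply]
  have h1 : ∀ l, (Uᵀ * M) i l * U l j = ∑ k, U k i * M k l * U l j := by
    intro l
    rw [Matrix.mul_apply, Finset.sum_mul]
    rfl
  simp only [h1]
  rw [Finset.sum_mul_sum, Finset.mul_sum, map_sum, Finset.sum_comm]
  refine Finset.sum_congr rfl fun k _ => ?_
  rw [Finset.mul_sum, map_sum]
  refine Finset.sum_congr rfl fun l _ => ?_
  have e1 : t * ((U k i • e k) * (U l j • e l)) = (U k i * U l j) • (t * (e k * e l)) := by
    simp only [Algebra.smul_def, map_mul]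
    ring
  rw [e1, map_smul, ← hM, smul_eq_mul]
  ring

/-- **Congruent Gram matrices.** -/
theorem sq_of_cong (hG : IsGen g f θ) {α α' : L} (hα : α ≠ 0) (hα' : α' ≠ 0)
    {e e' : Fin (2 * g + 1) → L} (li' : LinearIndependent F e')
    {A B A' B' : Mt g (𝓞 F)} (hGr : Gr hG α e A B) (hGr' : Gr hG α' e' A' B') {U : Mt g F}
    (hA : Uᵀ * mF A * U = mF A') (hB : Uᵀ * mF B * U = mF B') :
    ∃ β : L, α = β ^ 2 * α' := by
  have hfd : FiniteDimensional F L := Module.finite_of_finrank_pos (by rw [hG.rank]; omega)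
  obtain ⟨b, hb⟩ : ∃ b : Module.Basis (Fin (2 * g + 1)) F L, ⇑b = e' :=
    ⟨basisOfLinearIndependentOfCardEqFinrank li' (by rw [hG.rank, Fintype.card_fin]),
      coe_basisOfLinearIndependentOfCardEqFinrank _ _⟩
  obtain ⟨φ, hφ⟩ : ∃ φ : L →ₗ[F] L, ∀ j, φ (b j) = ∑ i, U i j • e i :=
    ⟨b.constr F (fun j => ∑ i, U i j • e i), fun j => b.constr_basis F _ j⟩
  have hMA : ∀ i j, (mF A) i j = Tm hG α (1 * (e i * e j)) := by
    intro i j
    rw [one_mul, Tm_apply]
    exact hGr.gA i j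
  have hMB : ∀ i j, (mF B) i j = Tm hG α (θ * (e i * e j)) := by
    intro i j
    rw [Tm_apply]
    exact hGr.gB i j
  -- the bilinear identities
  have key : ∀ t : L, (∀ i j, Tm hG α (t * (φ (b i) * φ (b j))) = Tm hG α' (t * (b i * b j))) →
      ∀ x y, Tm hG α (t * (φ x * φ y)) = Tm hG α' (t * (x * y)) := by
    intro t ht
    have s1 : ∀ j x, Tm hG α (t * (φ x * φ (b j))) = Tm hG α' (t * (x * b j)) := by
      intro j
      have h1 : (Tm hG α ∘ₗ LinearMap.mulLeft F t ∘ₗ LinearMap.mulRight F (φ (b j)) ∘ₗ φ) =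
          (Tm hG α' ∘ₗ LinearMap.mulLeft F t ∘ₗ LinearMap.mulRight F (b j)) := by
        refine b.ext fun i => ?_
        simp only [LinearMap.comp_apply, LinearMap.mulLeft_apply, LinearMap.mulRight_apply]
        exact ht i j
      intro x
      have h2 := LinearMap.congr_fun h1 x
      simp only [LinearMap.comp_apply, LinearMap.mulLeft_apply, LinearMap.mulRight_apply] at h2
      exact h2
    intro x y
    have h1 : (Tm hG α ∘ₗ LinearMap.mulLeft F t ∘ₗ LinearMap.mulLeft F (φ x) ∘ₗ φ) =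
        (Tm hG α' ∘ₗ LinearMap.mulLeft F t ∘ₗ LinearMap.mulLeft F x) := by
      refine b.ext fun i => ?_
      simp only [LinearMap.comp_apply, LinearMap.mulLeft_apply]
      exact s1 i x
    have h2 := LinearMap.congr_fun h1 y
    simp only [LinearMap.comp_apply, LinearMap.mulLeft_apply] at h2
    exact h2
  have kA : ∀ x y, Tm hG α (φ x * φ y) = Tm hG α' (x * y) := by
    intro x y
    have h1 := key 1 (by
      intro i j
      rw [hφ, hφ, sum_form hG hMA, hA, one_mul, hb, Tm_apply]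
      exact hGr'.gA i j) x y
    rwa [one_mul, one_mul] at h1
  have kB : ∀ x y, Tm hG α (θ * (φ x * φ y)) = Tm hG α' (θ * (x * y)) := by
    intro x y
    exact key θ (by
      intro i j
      rw [hφ, hφ, sum_form hG hMB, hB, hb, Tm_apply]
      exact hGr'.gB i j) x y
  have hinj : Function.Injective φ := by
    rw [injective_iff_map_eq_zero]
    intro x hx
    refine nondeg2 hG hα' x fun z => ?_
    rw [← Tm_apply, ← kA, hx, mul_zero, map_zero]
  have hsurj : Function.Surjective φ := LinearMap.injective_iff_surjective.1 hinj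
  have hcomm : ∀ y, φ (θ * y) = θ * φ y := by
    intro y
    have h0 : θ * φ y - φ (θ * y) = 0 := by
      refine nondeg2 hG hα _ fun z => ?_
      obtain ⟨x, rfl⟩ := hsurj z
      rw [← Tm_apply, mul_sub, map_sub]
      have e1 : φ x * (θ * φ y) = θ * (φ x * φ y) := by ring
      rw [e1, kB, kA]
      have e2 : θ * (x * y) = x * (θ * y) := by ring
      rw [e2, sub_self]
    exact (sub_eq_zero.1 h0).symm
  have hpow : ∀ m : ℕ, φ (θ ^ m) = φ 1 * θ ^ m := by
    intro m
    induction m with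
    | zero => rw [pow_zero, mul_one]
    | succ m ih => rw [pow_succ', hcomm, ih]; ring
  have hmul : ∀ y, φ y = φ 1 * y := by
    intro y
    obtain ⟨c, rfl⟩ := hG.gen y
    rw [map_sum, Finset.mul_sum]
    refine Finset.sum_congr rfl fun i _ => ?_
    rw [← Algebra.smul_def, map_smul, hpow, Algebra.smul_def, Algebra.smul_def]
    ring
  refine ⟨φ 1, ?_⟩
  have h1 : φ 1 ^ 2 / α - 1 / α' = 0 := by
    refine nondeg hG _ fun z => ?_
    have h2 := kA 1 z
    rw [hmul z, Tm_apply, Tm_apply] at h2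
    rw [mul_sub, map_sub]
    have e1 : z * (φ 1 ^ 2 / α) = φ 1 * (φ 1 * z) / α := by ring
    have e2 : z * (1 / α') = 1 * z / α' := by ring
    rw [e1, e2, h2, sub_self]
  have h2 : φ 1 ^ 2 / α = 1 / α' := sub_eq_zero.1 h1
  rw [div_eq_div_iff hα hα'] at h2
  linear_combination -h2

/-- the congruence class of a pair -/
def cls (A B : Mt g F) : Set (Mt g F × Mt g F) :=
  {p | ∃ U : Mt g F, IsUnit U.det ∧ p = (Uᵀ * A * U, Uᵀ * B * U)}

theorem self_mem (A B : Mt g F) : (A, B) ∈ cls A B :=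
  ⟨1, by rw [Matrix.det_one]; exact isUnit_one, by simp⟩

theorem cls_act {A B U : Mt g F} (hU : IsUnit U.det) : cls (Uᵀ * A * U) (Uᵀ * B * U) = cls A B := by
  ext p
  constructor
  · rintro ⟨V, hV, rfl⟩
    refine ⟨U * V, by rw [Matrix.det_mul]; exact hU.mul hV, ?_⟩
    simp only [Matrix.transpose_mul, Matrix.mul_assoc]
  · rintro ⟨V, hV, rfl⟩
    refine ⟨U⁻¹ * V, ?_, ?_⟩
    · rw [Matrix.det_mul]
      exact (Matrix.isUnit_nonsing_inv_det U hU).mul hV
    · have h1 : U * (U⁻¹ * V) = V := by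
        rw [← Matrix.mul_assoc, Matrix.mul_nonsing_inv _ hU, Matrix.one_mul]
      have h2 : (U⁻¹ * V)ᵀ * Uᵀ = Vᵀ := by rw [← Matrix.transpose_mul, h1]
      refine Prod.ext ?_ ?_
      · change Vᵀ * A * V = (U⁻¹ * V)ᵀ * (Uᵀ * A * U) * (U⁻¹ * V)
        calc Vᵀ * A * V = ((U⁻¹ * V)ᵀ * Uᵀ) * A * (U * (U⁻¹ * V)) := by rw [h1, h2]
          _ = _ := by simp only [Matrix.mul_assoc]
      · change Vᵀ * B * V = (U⁻¹ * V)ᵀ * (Uᵀ * B * U) * (U⁻¹ * V)
        calc Vᵀ * B * V = ((U⁻¹ * V)ᵀ * Uᵀ) * B * (U * (U⁻¹ * V)) := by rw [h1, h2]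
          _ = _ := by simp only [Matrix.mul_assoc]

/-- equal classes -/
theorem sq_of_cls (hG : IsGen g f θ) {α α' : L} (hα : α ≠ 0) (hα' : α' ≠ 0)
    {e e' : Fin (2 * g + 1) → L} (li' : LinearIndependent F e')
    {A B A' B' : Mt g (𝓞 F)} (hGr : Gr hG α e A B) (hGr' : Gr hG α' e' A' B')
    (h : cls (mF A) (mF B) = cls (mF A') (mF B')) : ∃ β : L, α = β ^ 2 * α' := by
  have h1 : (mF A', mF B') ∈ cls (mF A) (mF B) := by
    rw [h]; exact self_mem _ _
  obtain ⟨U, hU, hp⟩ := h1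
  have h2 := congrArg Prod.fst hp
  have h3 := congrArg Prod.snd hp
  exact sq_of_cong hG hα hα' li' hGr hGr' h2.symm h3.symm

end cls

end Pool.Agent.P8H15.BR
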