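import Pool.Agent.N438.PF.LB

/-!
# Coordinates on a cubic field `L = F(θ)`, `θ ^ 3 + A θ + B = 0`
-/

set_option autoImplicit false
set_option linter.all false

open Polynomial Matrix NumberField IsDedekindDomain
open scoped Classical

namespace Pool.Agent.P8H15.BR

open Pool.Agent.N783.PF
open Pool.Agent.N352.PJ (Mt Typ dd)
open Pool.Agent.N783.PQ (chp form Dist Gap Mid Deep eA eB eU uu)
open Pool.Agent.N438.PF

section coord

variable {F L : Type} [Field F] [NumberField F] [Field L] [NumberField L] [Algebra F L]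
variable {f : (𝓞 F)[X]} {θ : L}

/-- the element `a + b θ + c θ²` -/
noncomputable def el (θ : L) (a b c : F) : L :=
  algebraMap F L a + algebraMap F L b * θ + algebraMap F L c * θ ^ 2

theorem exists_el (hG : IsGen 1 f θ) (x : L) : ∃ a b c : F, x = el θ a b c := by
  obtain ⟨c, hc⟩ := hG.gen x
  refine ⟨c 0, c 1, c 2, ?_⟩
  rw [hc]
  have h1 : ∑ i : Fin (2 * 1 + 1), algebraMap F L (c i) * θ ^ (i : ℕ) =
      algebraMap F L (c 0) * θ ^ 0 + algebraMap F L (c 1) * θ ^ 1 + algebraMap F L (c 2) * θ ^ 2 :=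
    Fin.sum_univ_three (fun i : Fin 3 => algebraMap F L (c i) * θ ^ (i : ℕ))
  rw [h1, el]
  ring

theorem top_smul (hG : IsGen 1 f θ) (a : F) (x : L) :
    hG.top (algebraMap F L a * x) = a * hG.top x := by
  rw [← Algebra.smul_def, map_smul, smul_eq_mul]

theorem top_el (hG : IsGen 1 f θ) (a b c : F) : hG.top (el θ a b c) = c := by
  have h0 := top_pow hG 0 (by norm_num)
  have h1 := top_pow hG 1 (by norm_num)
  have h2 := top_pow hG 2 (by norm_num)
  rw [if_neg (by norm_num)] at h0 h1
  rw [if_pos (by norm_num)] at h2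
  rw [pow_zero] at h0
  rw [pow_one] at h1
  have e : el θ a b c = algebraMap F L a * 1 + algebraMap F L b * θ + algebraMap F L c * θ ^ 2 := by
    rw [el, mul_one]
  rw [e, map_add, map_add, top_smul, top_smul, top_smul, h0, h1, h2]
  ring

theorem root3 (hG : IsGen 1 f θ) {A B : F} (hf : fF f = X ^ 3 + C A * X + C B) :
    θ ^ 3 = -(algebraMap F L A * θ) - algebraMap F L B := by
  have h := hG.root
  rw [hf] at h
  simp only [map_add, map_mul, map_pow, aeval_X, aeval_C] at h
  linear_combination h

theorem el_mul (hG : IsGen 1 f θ) {A B : F} (hf : fF f = X ^ 3 + C A * X + C B)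
    (a b c a' b' c' : F) : el θ a b c * el θ a' b' c' =
      el θ (a * a' - B * (b * c' + c * b')) (a * b' + b * a' - A * (b * c' + c * b') - B * (c * c'))
        (a * c' + b * b' + c * a' - A * (c * c')) := by
  have h := root3 hG hf
  simp only [el, map_sub, map_add, map_mul]
  linear_combination ((algebraMap F L b * algebraMap F L c' + algebraMap F L c * algebraMap F L b') +
    algebraMap F L c * algebraMap F L c' * θ) * h

theorem el_add (a b c a' b' c' : F) : el θ a b c + el θ a' b' c' =
    el θ (a + a') (b + b') (c + c') := by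
  simp only [el, map_add]
  ring

theorem el_neg (a b c : F) : - el θ a b c = el θ (-a) (-b) (-c) := by
  simp only [el, map_neg]
  ring

theorem el_sub (a b c a' b' c' : F) : el θ a b c - el θ a' b' c' =
    el θ (a - a') (b - b') (c - c') := by
  simp only [el, map_sub]
  ring

theorem el_smul (t a b c : F) : algebraMap F L t * el θ a b c = el θ (t * a) (t * b) (t * c) := by
  simp only [el, map_mul]
  ring

theorem el_inj (hG : IsGen 1 f θ) {A B : F} (hf : fF f = X ^ 3 + C A * X + C B)
    {a b c a' b' c' : F} (h : el θ a b c = el θ a' b' c') : a = a' ∧ b = b' ∧ c = c' := by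
  have t0 := congrArg hG.top h
  rw [top_el, top_el] at t0
  have e1 : θ = el θ (0 : F) 1 0 := by simp [el]
  have h1 : θ * el θ a b c = θ * el θ a' b' c' := by rw [h]
  have h1' : el θ (0 : F) 1 0 * el θ a b c = el θ (0 : F) 1 0 * el θ a' b' c' := by
    rw [← e1]; exact h1
  rw [el_mul hG hf, el_mul hG hf] at h1'
  have t1 := congrArg hG.top h1'
  rw [top_el, top_el] at t1
  have hb : b = b' := by rw [t0] at t1; linear_combination t1
  have h2 : algebraMap F L a = algebraMap F L a' := by
    have := h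
    rw [el, el, t0, hb] at this
    linear_combination this
  exact ⟨(algebraMap F L).injective h2, hb, t0⟩

/-- integral coordinates -/
def InR (F : Type) [Field F] [NumberField F] {L : Type} [Field L] [NumberField L] [Algebra F L]
    (θ x : L) : Prop :=
  ∃ a b c : 𝓞 F, x = el θ (a : F) (b : F) (c : F)

theorem InR.one : InR F θ (1 : L) := ⟨1, 0, 0, by simp [el]⟩

theorem InR.zero : InR F θ (0 : L) := ⟨0, 0, 0, by simp [el]⟩

theorem InR.add {x y : L} (hx : InR F θ x) (hy : InR F θ y) : InR F θ (x + y) := by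
  obtain ⟨a, b, c, rfl⟩ := hx
  obtain ⟨a', b', c', rfl⟩ := hy
  refine ⟨a + a', b + b', c + c', ?_⟩
  rw [el_add]
  simp only [map_add]

theorem InR.neg {x : L} (hx : InR F θ x) : InR F θ (-x) := by
  obtain ⟨a, b, c, rfl⟩ := hx
  refine ⟨-a, -b, -c, ?_⟩
  rw [el_neg]
  simp only [map_neg]

theorem InR.th : InR F θ θ := ⟨0, 1, 0, by simp [el]⟩

theorem InR.of (a : 𝓞 F) : InR F θ (algebraMap F L (a : F)) := ⟨a, 0, 0, by simp [el]⟩

theorem InR.mul (hG : IsGen 1 f θ) {A B : 𝓞 F} (hf : fF f = X ^ 3 + C (A : F) * X + C (B : F))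
    {x y : L} (hx : InR F θ x) (hy : InR F θ y) : InR F θ (x * y) := by
  obtain ⟨a, b, c, rfl⟩ := hx
  obtain ⟨a', b', c', rfl⟩ := hy
  refine ⟨a * a' - B * (b * c' + c * b'), a * b' + b * a' - A * (b * c' + c * b') - B * (c * c'),
    a * c' + b * b' + c * a' - A * (c * c'), ?_⟩
  rw [el_mul hG hf]
  simp only [map_add, map_sub, map_mul]

end coord

end Pool.Agent.P8H15.BR
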