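import Pool.Agent.P8H15.BR.Iso

/-!
# Descent by a 2-isogeny over a number field: the bound for the rank
-/

set_option autoImplicit false
set_option linter.all false

open WeierstrassCurve WeierstrassCurve.Affine IsDedekindDomain NumberField

namespace Pool.Agent.P8H15.BR

open Pool.Agent.V11306.CM

section desc

variable {F : Type} [Field F] [NumberField F] [DecidableEq F]

theorem even_q {a b : F} (v : HeightOneSpectrum (𝓞 F)) (hva : v.valuation F a ≤ 1)
    (hvb : v.valuation F b = 1) {x y : F} (hx : x ≠ 0) (hE : y ^ 2 = x ^ 3 + a * x ^ 2 + b * x) :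
    Even (Multiplicative.toAdd (v.valuationOfNeZero (Units.mk0 x hx))) := by
  have hvx : v.valuation F x ≠ 0 := (Valuation.ne_zero_iff _).2 hx
  have key : ∃ z : F, z ≠ 0 ∧ v.valuation F x = v.valuation F z ^ 2 := by
    have hfac : v.valuation F y ^ 2 = v.valuation F x * v.valuation F (x ^ 2 + (a * x + b)) := by
      rw [← map_pow, hE, ← map_mul]
      congr 1
      ring
    rcases lt_trichotomy (v.valuation F x) 1 with h | h | h
    · have h1 : v.valuation F (x ^ 2 + (a * x + b)) = 1 := by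
        have h2 : v.valuation F (a * x) < v.valuation F b := by
          rw [map_mul, hvb]
          exact (mul_le_of_le_one_left' hva).trans_lt h
        have h3 : v.valuation F (a * x + b) = 1 := by
          rw [(v.valuation F).map_add_eq_of_lt_right h2, hvb]
        have h4 : v.valuation F (x ^ 2) < v.valuation F (a * x + b) := by
          rw [map_pow, h3]
          exact pow_lt_one₀ zero_le' h two_ne_zero
        rw [(v.valuation F).map_add_eq_of_lt_right h4, h3]
      rw [h1, mul_one] at hfac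
      refine ⟨y, ?_, hfac.symm⟩
      rintro rfl
      rw [map_zero, zero_pow two_ne_zero] at hfac
      exact hvx hfac.symm
    · exact ⟨1, one_ne_zero, by rw [h, map_one, one_pow]⟩
    · have h0 : v.valuation F x < v.valuation F x ^ 2 := by
        conv_lhs => rw [← pow_one (v.valuation F x)]
        exact pow_lt_pow_right₀ h (by norm_num)
      have h1 : v.valuation F (x ^ 2 + (a * x + b)) = v.valuation F x ^ 2 := by
        have h2 : v.valuation F (a * x + b) ≤ v.valuation F x := by
          refine (Valuation.map_add _ _ _).trans (max_le ?_ (hvb.le.trans h.le))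
          rw [map_mul]
          exact mul_le_of_le_one_left' hva
        rw [← map_pow]
        refine (v.valuation F).map_add_eq_of_lt_left ?_
        rw [map_pow]
        exact h2.trans_lt h0
      rw [h1] at hfac
      have hy : y ≠ 0 := by
        rintro rfl
        rw [map_zero, zero_pow two_ne_zero] at hfac
        exact (mul_ne_zero hvx (pow_ne_zero 2 hvx)) hfac.symm
      refine ⟨y / x, div_ne_zero hy hx, ?_⟩
      rw [map_div₀, div_pow, hfac]
      field_simp
  obtain ⟨z, hz, hxz⟩ := key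
  have h1 : v.valuationOfNeZero (Units.mk0 x hx) = v.valuationOfNeZero (Units.mk0 z hz) ^ 2 := by
    have h2 : ((v.valuationOfNeZero (Units.mk0 x hx) : Multiplicative ℤ) :
        WithZero (Multiplicative ℤ)) = ((v.valuationOfNeZero (Units.mk0 z hz) ^ 2 :
          Multiplicative ℤ) : WithZero (Multiplicative ℤ)) := by
      rw [WithZero.coe_pow, v.valuationOfNeZero_eq, v.valuationOfNeZero_eq, Units.val_mk0,
        Units.val_mk0, hxz]
    exact WithZero.coe_injective h2
  rw [h1, toAdd_pow]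
  exact ⟨_, two_nsmul _⟩

/-- the primes where `b` is not a unit -/
def bS (b : F) : Set (HeightOneSpectrum (𝓞 F)) := {v | v.valuation F b ≠ 1}

theorem cover (F : Type) [Field F] [NumberField F] [DecidableEq F] : ∃ M : ℕ, ∀ a b : F,
    (∀ v : HeightOneSpectrum (𝓞 F), v.valuation F a ≤ 1) → (E a b).Δ ≠ 0 → ∃ U : Finset (E a b).Point,
      U.card ≤ M * 2 ^ (bS b).ncard ∧ ∀ P : (E a b).Point, ∃ u ∈ U,
        P = u ∨ ∃ (x y s : F) (h : (E a b).Nonsingular x y), x = s ^ 2 ∧ s ≠ 0 ∧
          P = u + .some x y h := by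
  classical
  obtain ⟨A, hA⟩ := Pool.Agent.Y155.QT14.sel_finite' F
  refine ⟨2 + 2 * A, fun a b hva hΔ => ?_⟩
  have hb0 : b ≠ 0 := (delta_iff.1 hΔ).1
  obtain ⟨T, hTc, hT0, hT⟩ := hA (bS b)
    (Pool.Agent.H437R2.Man.MW.finite_val_ne_one _ hb0)
  obtain ⟨E0, hE0⟩ : ∃ E0 : WeierstrassCurve.Affine F, E0 = E a b := ⟨_, rfl⟩
  have hT00 : (E a b).Nonsingular 0 0 := E_ns hΔ (by ring)
  let T0 : (E a b).Point := .some 0 0 hT00
  let Rel : F → (E a b).Point → Prop := fun t P =>
    ∃ (x y r : F) (h : (E a b).Nonsingular x y), r ≠ 0 ∧ x = t * r ^ 2 ∧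
      P = .some x y h
  let rep : F → (E a b).Point := fun t =>
    if h : ∃ P, Rel t P then Classical.choose h else 0
  let U : Finset (E a b).Point :=
    {0, T0} ∪ (T.image (fun t => - rep t) ∪ T.image (fun t => - rep t + T0))
  refine ⟨U, ?_, fun P => ?_⟩
  · have h1 : (T.image (fun t => - rep t)).card ≤ T.card := Finset.card_image_le
    have h2 : (T.image (fun t => - rep t + T0)).card ≤ T.card := Finset.card_image_le
    have h3 : ({0, T0} : Finset (E a b).Point).card ≤ 2 := Finset.card_le_two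
    have h4 := Finset.card_union_le ({0, T0} : Finset (E a b).Point)
      (T.image (fun t => - rep t) ∪ T.image (fun t => - rep t + T0))
    have h5 := Finset.card_union_le (T.image (fun t => - rep t))
      (T.image (fun t => - rep t + T0))
    have h6 : 1 ≤ 2 ^ (bS b).ncard := Nat.one_le_two_pow
    have hUe : U = {0, T0} ∪ (T.image (fun t => - rep t) ∪ T.image (fun t => - rep t + T0)) := rfl
    rw [← hUe] at h4
    calc U.card ≤ 2 + (T.card + T.card) := by omega
      _ ≤ 2 + 2 * (A * 2 ^ (bS b).ncard) := by omega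
      _ ≤ (2 + 2 * A) * 2 ^ (bS b).ncard := by nlinarith
  · rcases P with _ | ⟨x, y, h⟩
    · exact ⟨0, by simp [U], Or.inl rfl⟩
    by_cases hx : x = 0
    · have hy : y = 0 := by
        have hE := (E_eq _ _ x y).1 h.1
        rw [hx] at hE
        have : y ^ 2 = 0 := by rw [hE]; ring
        exact pow_eq_zero_iff two_ne_zero |>.1 this
      subst hx
      subst hy
      exact ⟨T0, by simp [U], Or.inl rfl⟩
    · have hE := (E_eq _ _ x y).1 h.1
      obtain ⟨t, ht, r, hr, hxr⟩ := hT (Units.mk0 x hx) (by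
        intro v hv
        have hvb : v.valuation F b = 1 := by
          by_contra hn
          exact hv hn
        exact even_q v (hva v) hvb hx hE)
      rw [Units.val_mk0] at hxr
      have hex : ∃ P, Rel t P := ⟨_, x, y, r, h, hr, hxr, rfl⟩
      have hrep : rep t = Classical.choose hex := by
        simp only [rep]
        rw [dif_pos hex]
      obtain ⟨x', y', r', h', hr', hxr', hP'⟩ := Classical.choose_spec hex
      rw [← hrep] at hP'
      have ht0 := hT0 t ht
      by_cases hc : x = x' ∧ y = (E a b).negY x' y'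
      · refine ⟨- rep t, ?_, Or.inl ?_⟩
        · refine Finset.mem_union_right _ (Finset.mem_union_left _ ?_)
          exact Finset.mem_image_of_mem _ ht
        · rw [hP', Point.neg_some]
          simp only [Point.some.injEq]
          exact hc
      · obtain ⟨x3, y3, l, w, h3, e, hcol⟩ := vieta h h' hc
        obtain ⟨-, -, -, -, -, s3⟩ := hcol
        by_cases hx3 : x3 = 0
        · refine ⟨- rep t + T0, ?_, Or.inl ?_⟩
          · refine Finset.mem_union_right _ (Finset.mem_union_right _ ?_)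
            exact Finset.mem_image_of_mem (fun t => - rep t + T0) ht
          · have hy3 : y3 = 0 := by
              have hE3 := (E_eq _ _ x3 y3).1 h3.1
              rw [hx3] at hE3
              have : y3 ^ 2 = 0 := by rw [hE3]; ring
              exact pow_eq_zero_iff two_ne_zero |>.1 this
            have e2 : Point.some x3 y3 h3 = T0 := by
              simp only [T0, Point.some.injEq]
              exact ⟨hx3, hy3⟩
            rw [hP', ← e2, ← e]
            abel
        · refine ⟨- rep t, ?_, Or.inr ⟨x3, y3, w / (t * r * r'), h3, ?_, ?_, ?_⟩⟩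
          · refine Finset.mem_union_right _ (Finset.mem_union_left _ ?_)
            exact Finset.mem_image_of_mem _ ht
          · rw [hxr, hxr'] at s3
            rw [div_pow, eq_div_iff (pow_ne_zero 2 (mul_ne_zero (mul_ne_zero ht0 hr) hr'))]
            linear_combination s3
          · refine div_ne_zero ?_ (mul_ne_zero (mul_ne_zero ht0 hr) hr')
            rintro rfl
            have hx' : x' ≠ 0 := by
              rw [hxr']
              exact mul_ne_zero ht0 (pow_ne_zero 2 hr')
            have : x * x' * x3 = 0 := by rw [s3]; ring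
            exact mul_ne_zero (mul_ne_zero hx hx') hx3 this
          · rw [hP', ← e]
            abel

theorem psi_surj {a b : F} (hΔ : (E a b).Δ ≠ 0) (hΔ1 : (E (-2 * a) (a ^ 2 - 4 * b)).Δ ≠ 0)
    (hΔ2 : (E (4 * a) (16 * b)).Δ ≠ 0) {x y s : F} (h : (E a b).Nonsingular x y)
    (hx : x = s ^ 2) (hs : s ≠ 0) : ∃ Q, psi a b hΔ hΔ1 hΔ2 Q = .some x y h := by
  have hE := (E_eq _ _ x y).1 h.1
  have hE2 : (8 * y) ^ 2 = (4 * x) ^ 3 + 4 * a * (4 * x) ^ 2 + 16 * b * (4 * x) := by
    linear_combination 64 * hE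
  obtain ⟨Q, hQ⟩ := phi_surj (a := -2 * a) (b := a ^ 2 - 4 * b) (a' := 4 * a) (b' := 16 * b)
    (by ring) (by ring) hΔ1 hΔ2 (E_ns hΔ2 hE2) (s := 2 * s) (by rw [hx]; ring)
    (mul_ne_zero two_ne_zero hs)
  refine ⟨Q, ?_⟩
  unfold psi
  rw [AddMonoidHom.comp_apply]
  have h1 : phiHom (a := -2 * a) (b := a ^ 2 - 4 * b) (a' := 4 * a) (b' := 16 * b)
    (by ring) (by ring) hΔ2 (delta_iff.1 hΔ1).1 Q = .some (4 * x) (8 * y) (E_ns hΔ2 hE2) := hQ
  rw [h1]
  change Point.some (1 / 4 * (4 * x) + 0) (1 / 8 * (8 * y)) _ = _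
  simp only [Point.some.injEq]
  constructor <;> ring

/-- **Descent by the 2-isogeny.** -/
theorem desc2 (F : Type) [Field F] [NumberField F] [DecidableEq F] : ∃ M : ℕ, ∀ a b : 𝓞 F,
    (E (a : F) (b : F)).Δ ≠ 0 → ∃ U : Finset (E (a : F) (b : F)).Point,
      U.card ≤ M * 2 ^ ((bS (b : F)).ncard + (bS ((a : F) ^ 2 - 4 * (b : F))).ncard) ∧
      ∀ P : (E (a : F) (b : F)).Point, ∃ u ∈ U, ∃ Q, P = u + (Q + Q) := by
  obtain ⟨M, hM⟩ := cover F
  refine ⟨M * M, fun a b hΔ => ?_⟩
  obtain ⟨h1, h2⟩ := delta_iff.1 hΔ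
  have hΔ1 : (E (-2 * (a : F)) ((a : F) ^ 2 - 4 * (b : F))).Δ ≠ 0 := by
    rw [delta_iff]
    refine ⟨h2, ?_⟩
    have e : (-2 * (a : F)) ^ 2 - 4 * ((a : F) ^ 2 - 4 * (b : F)) = 16 * (b : F) := by ring
    rw [e]
    exact mul_ne_zero (by norm_num) h1
  have hΔ2 : (E (4 * (a : F)) (16 * (b : F))).Δ ≠ 0 := by
    rw [delta_iff]
    refine ⟨mul_ne_zero (by norm_num) h1, ?_⟩
    have e : (4 * (a : F)) ^ 2 - 4 * (16 * (b : F)) = 16 * ((a : F) ^ 2 - 4 * (b : F)) := by ring
    rw [e]
    exact mul_ne_zero (by norm_num) h2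
  obtain ⟨U, hUc, hU⟩ := hM (a : F) (b : F) (fun v => v.valuation_le_one a) hΔ
  have ea : ((-2 * a : 𝓞 F) : F) = -2 * (a : F) := by
    change algebraMap (𝓞 F) F (-2 * a) = _
    rw [map_mul, map_neg, map_ofNat]
  obtain ⟨U'', hU''c, hU''⟩ := hM (-2 * (a : F)) ((a : F) ^ 2 - 4 * (b : F))
    (fun v => by rw [← ea]; exact v.valuation_le_one (-2 * a)) hΔ1
  let V : Finset (E (a : F) (b : F)).Point :=
    (U ×ˢ U'').image (fun p => p.1 + psi (a : F) (b : F) hΔ hΔ1 hΔ2 p.2)
  refine ⟨V, ?_, fun P => ?_⟩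
  · calc V.card ≤ (U ×ˢ U'').card := Finset.card_image_le
      _ = U.card * U''.card := Finset.card_product _ _
      _ ≤ (M * 2 ^ (bS (b : F)).ncard) * (M * 2 ^ (bS ((a : F) ^ 2 - 4 * (b : F))).ncard) :=
          Nat.mul_le_mul hUc hU''c
      _ = _ := by rw [pow_add]; ring
  · obtain ⟨u, hu, hP⟩ := hU P
    obtain ⟨Q, hQ⟩ : ∃ Q, P = u + psi (a : F) (b : F) hΔ hΔ1 hΔ2 Q := by
      rcases hP with hP | ⟨x, y, s, h, hx, hs, hP⟩
      · exact ⟨0, by rw [map_zero, add_zero]; exact hP⟩
      · obtain ⟨Q, hQ⟩ := psi_surj hΔ hΔ1 hΔ2 h hx hs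
        exact ⟨Q, by rw [hQ]; exact hP⟩
    obtain ⟨u', hu', hQ'⟩ := hU'' Q
    obtain ⟨R, hR⟩ : ∃ R, Q = u' + ph (a : F) (b : F) hΔ hΔ1 R := by
      rcases hQ' with hQ' | ⟨x, y, s, h, hx, hs, hQ'⟩
      · exact ⟨0, by rw [map_zero, add_zero]; exact hQ'⟩
      · obtain ⟨R, hR⟩ := phi_surj rfl rfl hΔ hΔ1 h hx hs
        exact ⟨R, by
          have : ph (a : F) (b : F) hΔ hΔ1 R = .some x y h := hR
          rw [this]; exact hQ'⟩
    refine ⟨u + psi (a : F) (b : F) hΔ hΔ1 hΔ2 u', ?_, R, ?_⟩
    · exact Finset.mem_image.2 ⟨(u, u'), Finset.mem_product.2 ⟨hu, hu'⟩, rfl⟩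
    · rw [hQ, hR, map_add, dbl, add_assoc]

end desc

end Pool.Agent.P8H15.BR
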