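import Pool.Agent.P8H15.BR.Sum

/-!
# The average of `2 ^ rank` over the minimal curves of height at most `Y`
-/

set_option autoImplicit false
set_option linter.all false

open Polynomial Matrix NumberField IsDedekindDomain WeierstrassCurve
open scoped Classical

namespace Pool.Agent.P8H15.BR

open Pool.Agent.N783.PF
open Pool.Agent.K4H55.BD (crv mw)
open Pool.Agent.N61.PF (pol eq_pol crv_finite ht_lower crv_of_ht exists_B)

/-- the number of the minimal curves is of the right order, from below -/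
theorem crv_low (F : Type) [Field F] [NumberField F] : ∃ c : ℝ, 0 < c ∧ ∃ B₁ : ℕ, 1 ≤ B₁ ∧
    ∀ B ≥ B₁, ∀ Y : ℝ, 27 * (B : ℝ) ^ 6 ≤ Y →
      c * (B : ℝ) ^ (5 * Module.finrank ℚ F) ≤ ({p : 𝓞 F × 𝓞 F | Crv Y p}.ncard : ℝ) := by
  have h0 := Pool.Agent.N490.PF.pts
  obtain ⟨-, C, hC, hlow, hup⟩ := h0 F
  obtain ⟨c, hc, B₀, hmain⟩ := main 1 F le_rfl
  obtain ⟨d, hd⟩ : ∃ d, d = Module.finrank ℚ F := ⟨_, rfl⟩
  refine ⟨c / C ^ 2, by positivity, max B₀ 1, le_max_right _ _, fun B hB Y hBY => ?_⟩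
  have hB1 : 1 ≤ B := (le_max_right _ _).trans hB
  obtain ⟨hfinH, hprop⟩ := hmain B ((le_max_left _ _).trans hB)
  have hl := ht_lower hC hlow hB1 hfinH
  have hfin := crv_finite (F := F) h0 Y
  have h5 : ({f : (𝓞 F)[X] | Ht 1 B f ∧ Irreducible (fF f) ∧ SelZero f ∧ Min 1 f}.ncard : ℝ) ≤
      ({p : 𝓞 F × 𝓞 F | Crv Y p}.ncard : ℝ) := by
    have h6 := Set.ncard_le_ncard_of_injOn (fun f : (𝓞 F)[X] => (f.coeff 1, f.coeff 0))
      (s := {f : (𝓞 F)[X] | Ht 1 B f ∧ Irreducible (fF f) ∧ SelZero f ∧ Min 1 f})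
      (t := {p : 𝓞 F × 𝓞 F | Crv Y p})
      (fun f hf => crv_of_ht hf.1 hf.2.1 hf.2.2.2 hBY)
      (by
        intro f hf f' hf' h
        have e := Prod.mk.injEq .. ▸ h
        rw [eq_pol hf.1, eq_pol hf'.1, e.1, e.2]) hfin
    exact_mod_cast h6
  rw [div_mul_eq_mul_div, div_le_iff₀ (by positivity)]
  calc c * (B : ℝ) ^ (5 * Module.finrank ℚ F) ≤
        c * (C ^ 2 * ({f : (𝓞 F)[X] | Ht 1 B f}.ncard : ℝ)) :=
        mul_le_mul_of_nonneg_left hl hc.le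
    _ = (c * ({f : (𝓞 F)[X] | Ht 1 B f}.ncard : ℝ)) * C ^ 2 := by ring
    _ ≤ _ := mul_le_mul_of_nonneg_right (hprop.trans h5) (by positivity)

/-- **The average of `2 ^ rank` is bounded.** -/
theorem avg (F : Type) [Field F] [NumberField F] : ∃ C : ℝ, 0 < C ∧ ∀ Y : ℝ,
    ∀ T : Finset (𝓞 F × 𝓞 F), (∀ p, p ∈ T ↔ Crv Y p) →
    ∑ p ∈ T, (2 : ℝ) ^ rk p ≤ C * (T.card : ℝ) := by
  obtain ⟨C, B₀, hB₀, hsum⟩ := sum_le F
  obtain ⟨c, hc, B₁, hB₁, hlow⟩ := crv_low F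
  obtain ⟨d, hd⟩ : ∃ d, d = Module.finrank ℚ F := ⟨_, rfl⟩
  rw [← hd] at hsum hlow
  obtain ⟨B₂, hB₂⟩ : ∃ B₂, B₂ = max B₀ B₁ := ⟨_, rfl⟩
  have hB₂1 : 1 ≤ B₂ := by rw [hB₂]; exact hB₀.trans (le_max_left _ _)
  -- the small heights
  have hfin0 := crv_finite (F := F) Pool.Agent.N490.PF.pts (27 * (B₂ : ℝ) ^ 6)
  obtain ⟨M, hM⟩ : ∃ M : ℝ, M = ∑ p ∈ hfin0.toFinset, (2 : ℝ) ^ rk p := ⟨_, rfl⟩
  have hM0 : 0 ≤ M := by rw [hM]; exact Finset.sum_nonneg fun p _ => by positivity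
  refine ⟨C * 4 ^ (5 * d) / c + M + 1, by positivity, fun Y T hT => ?_⟩
  rcases le_or_gt (27 * (B₂ : ℝ) ^ 6) Y with hY | hY
  · obtain ⟨B, hBB, hBY, hYB⟩ := exists_B B₂ Y hB₂1 hY
    have hB1 : 1 ≤ B := hB₂1.trans hBB
    have hB1r : (1 : ℝ) ≤ B := by exact_mod_cast hB1
    have hlo := hlow B (by rw [hB₂] at hBB; exact (le_max_right _ _).trans hBB) Y hBY
    have hTc : ({p : 𝓞 F × 𝓞 F | Crv Y p}.ncard : ℝ) = (T.card : ℝ) := by
      have : {p : 𝓞 F × 𝓞 F | Crv Y p} = (T : Set (𝓞 F × 𝓞 F)) := by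
        ext p
        exact (hT p).symm
      rw [this, Set.ncard_coe_finset]
    rw [hTc] at hlo
    have hTT : ∀ p ∈ T, TT (2 * (B + 1)) p := by
      intro p hp
      have hp' := (hT p).1 hp
      refine ⟨fun σ => ?_, fun σ => ?_, hp'.disc⟩
      · have h3 := (hp'.ht σ).1
        by_contra hcon
        rw [not_le] at hcon
        have h4 : (((2 * (B + 1) : ℕ) : ℝ) ^ 2) ^ 3 < ‖σ (p.1 : F)‖ ^ 3 :=
          pow_lt_pow_left₀ hcon (by positivity) (by norm_num)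
        have h5 : (((2 * (B + 1) : ℕ) : ℝ) ^ 2) ^ 3 = 64 * ((B : ℝ) + 1) ^ 6 := by
          push_cast
          ring
        have h6 : 0 < ((B : ℝ) + 1) ^ 6 := by positivity
        linarith
      · have h3 := (hp'.ht σ).2
        by_contra hcon
        rw [not_le] at hcon
        have h4 : (((2 * (B + 1) : ℕ) : ℝ) ^ 3) ^ 2 < ‖σ (p.2 : F)‖ ^ 2 :=
          pow_lt_pow_left₀ hcon (by positivity) (by norm_num)
        have h5 : (((2 * (B + 1) : ℕ) : ℝ) ^ 3) ^ 2 = 64 * ((B : ℝ) + 1) ^ 6 := by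
          push_cast
          ring
        have h6 : 0 < ((B : ℝ) + 1) ^ 6 := by positivity
        linarith
    have h7 := hsum (2 * (B + 1)) (by
      have : B₀ ≤ B := by rw [hB₂] at hBB; exact (le_max_left _ _).trans hBB
      omega) T hTT
    have h8 : ∑ p ∈ T, (2 : ℝ) ^ rk p ≤ (C : ℝ) * ((2 * (B + 1) : ℕ) : ℝ) ^ (5 * d) := by
      exact_mod_cast h7
    have h9 : ((2 * (B + 1) : ℕ) : ℝ) ≤ 4 * (B : ℝ) := by
      push_cast
      linarith
    have h10 : (B : ℝ) ^ (5 * d) ≤ (T.card : ℝ) / c := by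
      rw [le_div_iff₀ hc]
      linarith
    have hT0 : (0 : ℝ) ≤ T.card := Nat.cast_nonneg _
    calc ∑ p ∈ T, (2 : ℝ) ^ rk p ≤ (C : ℝ) * ((2 * (B + 1) : ℕ) : ℝ) ^ (5 * d) := h8
      _ ≤ (C : ℝ) * (4 * (B : ℝ)) ^ (5 * d) := by
          refine mul_le_mul_of_nonneg_left ?_ (Nat.cast_nonneg _)
          exact pow_le_pow_left₀ (Nat.cast_nonneg _) h9 _
      _ = (C : ℝ) * 4 ^ (5 * d) * (B : ℝ) ^ (5 * d) := by rw [mul_pow]; ring
      _ ≤ (C : ℝ) * 4 ^ (5 * d) * ((T.card : ℝ) / c) :=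
          mul_le_mul_of_nonneg_left h10 (by positivity)
      _ = C * 4 ^ (5 * d) / c * T.card := by ring
      _ ≤ (C * 4 ^ (5 * d) / c + M + 1) * (T.card : ℝ) := by
          refine mul_le_mul_of_nonneg_right ?_ hT0
          linarith
  · have h1 : ∀ p ∈ T, p ∈ hfin0.toFinset := by
      intro p hp
      have hp' := (hT p).1 hp
      rw [Set.Finite.mem_toFinset]
      exact ⟨hp'.disc, hp'.min, fun σ => ⟨(hp'.ht σ).1.trans hY.le, (hp'.ht σ).2.trans hY.le⟩⟩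
    have hnn : 0 ≤ (C : ℝ) * 4 ^ (5 * d) / c := by positivity
    calc ∑ p ∈ T, (2 : ℝ) ^ rk p ≤ ∑ p ∈ T, M := by
          refine Finset.sum_le_sum fun p hp => ?_
          rw [hM]
          exact Finset.single_le_sum (f := fun p => (2 : ℝ) ^ rk p)
            (fun q _ => by positivity) (h1 p hp)
      _ = M * T.card := by rw [Finset.sum_const, nsmul_eq_mul, mul_comm]
      _ ≤ (C * 4 ^ (5 * d) / c + M + 1) * (T.card : ℝ) := by
          refine mul_le_mul_of_nonneg_right ?_ (Nat.cast_nonneg _)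
          linarith

end Pool.Agent.P8H15.BR
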