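import Pool.Agent.V11306.CMb
import Pool.Agent.Y155.QT14a
import Pool.Agent.Y155.QT14b
import Pool.Agent.K4H55.BD.Alg

/-!
# Descent by a 2-isogeny over a number field: a bound for the rank
-/

set_option autoImplicit false
set_option linter.all false

open WeierstrassCurve WeierstrassCurve.Affine IsDedekindDomain NumberField

namespace Pool.Agent.P8H15.BR

open Pool.Agent.V11306.CM

section iso

variable {K : Type} [Field K] [DecidableEq K] [CharZero K]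

theorem delta_iff {a b : K} : (E a b).Δ ≠ 0 ↔ b ≠ 0 ∧ a ^ 2 - 4 * b ≠ 0 := by
  rw [E_delta]
  constructor
  · intro h
    constructor
    · rintro rfl
      apply h
      ring
    · intro h0
      apply h
      rw [h0]
      ring
  · rintro ⟨h1, h2⟩
    exact mul_ne_zero (mul_ne_zero (by norm_num) (pow_ne_zero _ h1)) h2

/-- points whose first coordinate is a square are in the image -/
theorem phi_surj {a b a' b' : K} (ha : a' = -2 * a) (hb : b' = a ^ 2 - 4 * b)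
    (hΔ : (E a b).Δ ≠ 0) (hΔ' : (E a' b').Δ ≠ 0) {X Y s : K} (h : (E a' b').Nonsingular X Y)
    (hX : X = s ^ 2) (hs : s ≠ 0) : ∃ P, phi a b a' b' ha hb hΔ' P = .some X Y h := by
  obtain ⟨u, hu⟩ : ∃ u : K, Y = s * u := ⟨Y / s, by field_simp⟩
  have hE := (E_eq a' b' X Y).1 h.1
  have hu2 : u ^ 2 = (s ^ 2 - a) ^ 2 - 4 * b := by
    have h1 : s ^ 2 * u ^ 2 = s ^ 2 * ((s ^ 2 - a) ^ 2 - 4 * b) := by
      rw [hu, hX, ha, hb] at hE
      linear_combination hE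
    exact mul_left_cancel₀ (pow_ne_zero 2 hs) h1
  obtain ⟨x, hx⟩ : ∃ x : K, x = (s ^ 2 - a + u) / 2 := ⟨_, rfl⟩
  have hxe : x ^ 2 + (a - s ^ 2) * x + b = 0 := by
    rw [hx]
    linear_combination hu2 / 4
  have hb0 : b ≠ 0 := (delta_iff.1 hΔ).1
  have hx0 : x ≠ 0 := by
    rintro h0
    rw [h0] at hxe
    apply hb0
    linear_combination hxe
  have hux : u = 2 * x + a - s ^ 2 := by
    rw [hx]
    ring
  have hEq : (s * x) ^ 2 = x ^ 3 + a * x ^ 2 + b * x := by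
    linear_combination (-x) * hxe
  refine ⟨.some x (s * x) (E_ns hΔ hEq), ?_⟩
  rw [phi_of_ne ha hb hΔ' _ hx0]
  simp only [Point.some.injEq]
  constructor
  · rw [hX]
    field_simp
  · rw [hu, hux]
    field_simp
    linear_combination (-1 : K) * hxe

/-- the second isogeny, followed by the scaling -/
noncomputable def psi (a b : K) (hΔ : (E a b).Δ ≠ 0) (hΔ1 : (E (-2 * a) (a ^ 2 - 4 * b)).Δ ≠ 0)
    (hΔ2 : (E (4 * a) (16 * b)).Δ ≠ 0) : (E (-2 * a) (a ^ 2 - 4 * b)).Point →+ (E a b).Point :=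
  (affHom (a := 4 * a) (b := 16 * b) (a' := a) (b' := b) (α := 1 / 4) (β := 0) (γ := 1 / 8)
    (by norm_num) (by ring) (by ring) (by ring) hΔ (by norm_num)).comp
  (phiHom (a := -2 * a) (b := a ^ 2 - 4 * b) (a' := 4 * a) (b' := 16 * b)
    (by ring) (by ring) hΔ2 (delta_iff.1 hΔ1).1)

theorem psi_of_zero {a b : K} (hΔ : (E a b).Δ ≠ 0) (hΔ1 : (E (-2 * a) (a ^ 2 - 4 * b)).Δ ≠ 0)
    (hΔ2 : (E (4 * a) (16 * b)).Δ ≠ 0) {X Y : K} (h : (E (-2 * a) (a ^ 2 - 4 * b)).Nonsingular X Y)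
    (hX : X = 0) : psi a b hΔ hΔ1 hΔ2 (.some X Y h) = 0 := by
  unfold psi
  rw [AddMonoidHom.comp_apply]
  have h1 : phiHom (a := -2 * a) (b := a ^ 2 - 4 * b) (a' := 4 * a) (b' := 16 * b)
    (by ring) (by ring) hΔ2 (delta_iff.1 hΔ1).1 (.some X Y h) = 0 := phi_of_zero (by ring) (by ring) hΔ2 h hX
  rw [h1, map_zero]

theorem psi_of_ne {a b : K} (hΔ : (E a b).Δ ≠ 0) (hΔ1 : (E (-2 * a) (a ^ 2 - 4 * b)).Δ ≠ 0)
    (hΔ2 : (E (4 * a) (16 * b)).Δ ≠ 0) {X Y : K} (h : (E (-2 * a) (a ^ 2 - 4 * b)).Nonsingular X Y)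
    (hX : X ≠ 0) : ∃ h', psi a b hΔ hΔ1 hΔ2 (.some X Y h) =
      .some (1 / 4 * (Y ^ 2 / X ^ 2) + 0) (1 / 8 * (Y * (X ^ 2 - (a ^ 2 - 4 * b)) / X ^ 2)) h' := by
  unfold psi
  rw [AddMonoidHom.comp_apply]
  have h1 : phiHom (a := -2 * a) (b := a ^ 2 - 4 * b) (a' := 4 * a) (b' := 16 * b)
    (by ring) (by ring) hΔ2 (delta_iff.1 hΔ1).1 (.some X Y h) =
      .some (Y ^ 2 / X ^ 2) (Y * (X ^ 2 - (a ^ 2 - 4 * b)) / X ^ 2)
        (E_ns hΔ2 (img_eq (by ring) (by ring) hX ((E_eq _ _ X Y).mp h.1))) :=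
    phi_of_ne (by ring) (by ring) hΔ2 h hX
  rw [h1]
  exact ⟨_, rfl⟩

/-- the first isogeny -/
noncomputable def ph (a b : K) (hΔ : (E a b).Δ ≠ 0) (hΔ1 : (E (-2 * a) (a ^ 2 - 4 * b)).Δ ≠ 0) :
    (E a b).Point →+ (E (-2 * a) (a ^ 2 - 4 * b)).Point :=
  phiHom (a := a) (b := b) (a' := -2 * a) (b' := a ^ 2 - 4 * b) rfl rfl hΔ1 (delta_iff.1 hΔ).1

theorem E_two (x y a b : K) (h : (E a b).Nonsingular x y) (hy : y ≠ 0) :
    ∃ (x3 y3 l v : K) (h3 : (E a b).Nonsingular x3 y3),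
      Point.some _ _ h + Point.some _ _ h = Point.some _ _ h3 ∧
      Col a b x y x y x3 (-y3) l v := by
  refine vieta h h ?_
  rintro ⟨-, h1⟩
  rw [E_negY] at h1
  apply hy
  have : 2 * y = 0 := by linear_combination h1
  rcases mul_eq_zero.1 this with h2 | h2
  · norm_num at h2
  · exact h2

theorem dbl (a b : K) (hΔ : (E a b).Δ ≠ 0) (hΔ1 : (E (-2 * a) (a ^ 2 - 4 * b)).Δ ≠ 0)
    (hΔ2 : (E (4 * a) (16 * b)).Δ ≠ 0) (P : (E a b).Point) :
    psi a b hΔ hΔ1 hΔ2 (ph a b hΔ hΔ1 P) = P + P := by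
  rcases P with _ | ⟨x, y, h⟩
  · change psi a b hΔ hΔ1 hΔ2 (ph a b hΔ hΔ1 0) = 0 + 0
    rw [map_zero, map_zero, add_zero]
  have hE := (E_eq a b x y).1 h.1
  by_cases hx : x = 0
  · have hy : y = 0 := by
      rw [hx] at hE
      have : y ^ 2 = 0 := by rw [hE]; ring
      exact pow_eq_zero_iff two_ne_zero |>.1 this
    have h1 : ph a b hΔ hΔ1 (.some x y h) = 0 := phi_of_zero rfl rfl hΔ1 h hx
    rw [h1, map_zero]
    symm
    apply Point.add_of_Y_eq rfl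
    rw [E_negY, hy, neg_zero]
  · have h1 : ph a b hΔ hΔ1 (.some x y h) = .some (y ^ 2 / x ^ 2) (y * (x ^ 2 - b) / x ^ 2)
        (E_ns hΔ1 (img_eq rfl rfl hx hE)) := phi_of_ne rfl rfl hΔ1 h hx
    rw [h1]
    by_cases hy : y = 0
    · have h2 : psi a b hΔ hΔ1 hΔ2 (.some (y ^ 2 / x ^ 2) (y * (x ^ 2 - b) / x ^ 2)
          (E_ns hΔ1 (img_eq rfl rfl hx hE))) = 0 := psi_of_zero hΔ hΔ1 hΔ2 _ (by rw [hy]; simp)
      rw [h2]
      symm
      apply Point.add_of_Y_eq rfl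
      rw [E_negY, hy, neg_zero]
    · have hX : y ^ 2 / x ^ 2 ≠ 0 := div_ne_zero (pow_ne_zero _ hy) (pow_ne_zero _ hx)
      obtain ⟨x3, y3, l, v, h3, e3, hc⟩ := E_two x y a b h hy
      rw [e3]
      obtain ⟨h', e4⟩ := psi_of_ne hΔ hΔ1 hΔ2 (E_ns hΔ1 (img_eq rfl rfl hx hE)) hX
      rw [e4]
      simp only [Point.some.injEq]
      obtain ⟨c1, -, c3, s1, s2, s3⟩ := hc
      have hl : 2 * y * l = 3 * x ^ 2 + 2 * a * x + b := by
        linear_combination s2 - 2 * x * s1 + 2 * l * c1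
      have hx3 : 4 * y ^ 2 * x3 = (x ^ 2 - b) ^ 2 := by
        have : x3 = l ^ 2 - a - 2 * x := by linear_combination s1
        rw [this]
        linear_combination (2 * y * l + (3 * x ^ 2 + 2 * a * x + b)) * hl - 4 * (a + 2 * x) * hE
      have hy3 : y3 = - (l * (x3 - x) + y) := by linear_combination -c3 + c1
      constructor
      · rw [add_zero]
        field_simp
        linear_combination (-1 : K) * hx3
      · have k1 : 8 * y ^ 3 * y3 = (x ^ 2 - b) * ((x ^ 2 + a * x + b) ^ 2 -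
            (a ^ 2 - 4 * b) * x ^ 2) := by
          rw [hy3]
          have k2 : 8 * y ^ 3 * -(l * (x3 - x) + y) =
              -(2 * y * l) * (4 * y ^ 2 * x3 - 4 * x * y ^ 2) - 8 * (y ^ 2) ^ 2 := by ring
          rw [k2, hl, hx3, hE]
          ring
        have k3 : y ^ 4 = x ^ 2 * (x ^ 2 + a * x + b) ^ 2 := by
          have : y ^ 4 = (y ^ 2) ^ 2 := by ring
          rw [this, hE]
          ring
        field_simp
        have k4 : x ^ 2 * (8 * y ^ 3 * y3) = (x ^ 2 - b) * (y ^ 4 - (a ^ 2 - 4 * b) * x ^ 4) := by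
          rw [k1, k3]
          ring
        linear_combination (-1 : K) * k4

end iso

end Pool.Agent.P8H15.BR
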