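import Pool.Agent.P8H15.BR.Coord

/-!
# The lattice attached to a point of an elliptic curve over a number field

`P = (x₀, y₀)` is a point of `y² = x³ + A x + B` over `F` and `θ` a zero of the polynomial, `L = F(θ)`
of degree three. With `α = x₀ - θ`, `R = 𝓞 F [θ]` and `𝔠 = {c : c² x₀ integral}` the lattice
`𝔠 α R + 𝔠² y₀ R` is unimodular for the form `x y / α` (coefficient of `θ²`).
-/

set_option autoImplicit false
set_option linter.all false

open Polynomial Matrix NumberField IsDedekindDomain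
open scoped Classical

namespace Pool.Agent.P8H15.BR

open Pool.Agent.N783.PF
open Pool.Agent.N352.PJ (Mt Typ dd)
open Pool.Agent.N783.PQ (chp form Dist Gap Mid Deep eA eB eU uu)
open Pool.Agent.N438.PF

section den

variable {F : Type} [Field F] [NumberField F]

theorem cadd (a b : 𝓞 F) : ((a + b : 𝓞 F) : F) = (a : F) + (b : F) := rfl

theorem cmul (a b : 𝓞 F) : ((a * b : 𝓞 F) : F) = (a : F) * (b : F) := rfl

theorem cpow (a : 𝓞 F) (n : ℕ) : ((a ^ n : 𝓞 F) : F) = (a : F) ^ n :=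
  map_pow (algebraMap (𝓞 F) F) a n

theorem czero : ((0 : 𝓞 F) : F) = 0 := rfl

theorem cone : ((1 : 𝓞 F) : F) = 1 := rfl

theorem cneg (a : 𝓞 F) : ((-a : 𝓞 F) : F) = -(a : F) := rfl

theorem csub (a b : 𝓞 F) : ((a - b : 𝓞 F) : F) = (a : F) - (b : F) := rfl

theorem calg (a : 𝓞 F) : algebraMap (𝓞 F) F a = (a : F) := rfl

theorem int_iff (x : F) : IsIntegral ℤ x ↔ ∃ a : 𝓞 F, (a : F) = x :=
  ⟨fun h => ⟨⟨x, h⟩, rfl⟩, by rintro ⟨a, rfl⟩; exact a.2⟩

theorem int_of (a : 𝓞 F) : IsIntegral ℤ (a : F) := a.2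

theorem int_cc {x0 c c' : F} (h : IsIntegral ℤ (c ^ 2 * x0)) (h' : IsIntegral ℤ (c' ^ 2 * x0)) :
    IsIntegral ℤ (c * c' * x0) := by
  refine IsIntegral.of_pow (n := 2) two_pos ?_
  have e : (c * c' * x0) ^ 2 = (c ^ 2 * x0) * (c' ^ 2 * x0) := by ring
  rw [e]
  exact h.mul h'

/-- the ideal of the `c` such that `c² x₀` is integral -/
def cI (x0 : F) : Ideal (𝓞 F) where
  carrier := {c | IsIntegral ℤ ((c : F) ^ 2 * x0)}
  add_mem' := by
    intro c c' hc hc'
    have h1 := int_cc hc hc'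
    have e : (((c + c' : 𝓞 F)) : F) ^ 2 * x0 =
        (c : F) ^ 2 * x0 + (((2 : ℤ) : F) * ((c : F) * (c' : F) * x0)) + (c' : F) ^ 2 * x0 := by
      rw [cadd]
      push_cast
      ring
    change IsIntegral ℤ _
    rw [e]
    exact (IsIntegral.add hc ((isIntegral_algebraMap (R := ℤ) (x := (2 : ℤ))).mul h1)).add hc'
  zero_mem' := by
    change IsIntegral ℤ _
    rw [czero]
    simp [isIntegral_zero]
  smul_mem' := by
    intro a c hc
    change IsIntegral ℤ _
    have e : (((a • c : 𝓞 F)) : F) ^ 2 * x0 = (a : F) ^ 2 * ((c : F) ^ 2 * x0) := by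
      rw [smul_eq_mul, cmul]
      ring
    rw [e]
    exact ((int_of a).pow 2).mul hc

theorem mem_cI {x0 : F} {c : 𝓞 F} : c ∈ cI x0 ↔ IsIntegral ℤ ((c : F) ^ 2 * x0) := Iff.rfl

theorem cI2 {x0 : F} {c c' : 𝓞 F} (h : c ∈ cI x0) (h' : c' ∈ cI x0) :
    IsIntegral ℤ ((c : F) * c' * x0) := int_cc h h'

theorem cI3 {x0 y0 : F} {A B c c' c'' : 𝓞 F} (hE : y0 ^ 2 = x0 ^ 3 + (A : F) * x0 + (B : F))
    (h : c ∈ cI x0) (h' : c' ∈ cI x0) (h'' : c'' ∈ cI x0) :
    IsIntegral ℤ ((c : F) * c' * c'' * y0) := by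
  refine IsIntegral.of_pow (n := 2) two_pos ?_
  have e : ((c : F) * c' * c'' * y0) ^ 2 = ((c : F) ^ 2 * x0) * ((c' : F) ^ 2 * x0) * ((c'' : F) ^ 2 * x0)
      + (A : F) * ((c' : F) * c'') ^ 2 * ((c : F) ^ 2 * x0) + (B : F) * ((c : F) * c' * c'') ^ 2 := by
    rw [mul_pow, hE]
    ring
  rw [e]
  refine ((IsIntegral.mul (h.mul h') h'').add ?_).add ?_
  · exact ((int_of A).mul (((int_of c').mul (int_of c'')).pow 2)).mul h
  · exact (int_of B).mul ((((int_of c).mul (int_of c')).mul (int_of c'')).pow 2)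

theorem exists_cI (x0 : F) : ∃ c ∈ cI x0, c ≠ 0 := by
  obtain ⟨p, q, hq, hpq⟩ := IsFractionRing.div_surjective (A := 𝓞 F) x0
  have hq0 : q ≠ 0 := nonZeroDivisors.ne_zero hq
  have hqK : algebraMap (𝓞 F) F q ≠ 0 := by simpa using hq0
  refine ⟨q, ?_, hq0⟩
  rw [mem_cI, int_iff]
  refine ⟨q * p, ?_⟩
  rw [← hpq, cmul, calg, calg]
  rw [calg] at hqK
  field_simp

/-- the local statement -/
theorem loc {x0 y0 : F} {A B : 𝓞 F} (hE : y0 ^ 2 = x0 ^ 3 + (A : F) * x0 + (B : F))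
    (v : HeightOneSpectrum (𝓞 F)) : ∃ c a : 𝓞 F, (a : F) = (c : F) ^ 2 * x0 ∧
      (c ∉ v.asIdeal ∨ a ∉ v.asIdeal) := by
  by_cases h1 : v.valuation F x0 ≤ 1
  · obtain ⟨n, d, hnd⟩ := v.exists_primeCompl_mul_eq_of_integer x0 h1
    refine ⟨d, d * n, ?_, Or.inl d.2⟩
    rw [cmul, ← calg n, ← hnd, calg]
    ring
  · rw [not_le] at h1
    have hA : v.valuation F (A : F) ≤ 1 := v.valuation_le_one A
    have hB : v.valuation F (B : F) ≤ 1 := v.valuation_le_one B
    have h2 : v.valuation F x0 < v.valuation F x0 ^ 3 := by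
      conv_lhs => rw [← pow_one (v.valuation F x0)]
      exact pow_lt_pow_right₀ h1 (by norm_num)
    have h3 : v.valuation F ((A : F) * x0 + (B : F)) ≤ v.valuation F x0 := by
      refine (Valuation.map_add _ _ _).trans (max_le ?_ (hB.trans h1.le))
      rw [map_mul]
      exact mul_le_of_le_one_left' hA
    have h4 : v.valuation F y0 ^ 2 = v.valuation F x0 ^ 3 := by
      rw [← map_pow, hE, add_assoc, ← map_pow]
      refine (v.valuation F).map_add_eq_of_lt_left ?_
      rw [map_pow]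
      exact h3.trans_lt h2
    have hx : v.valuation F x0 ≠ 0 := (lt_trans zero_lt_one h1).ne'
    have hx0 : x0 ≠ 0 := (Valuation.ne_zero_iff _).1 hx
    have hy : v.valuation F y0 ≠ 0 := by
      intro h
      rw [h] at h4
      have : v.valuation F x0 ^ 3 ≠ 0 := pow_ne_zero _ hx
      apply this
      rw [← h4]
      exact zero_pow two_ne_zero
    have hy0 : y0 ≠ 0 := (Valuation.ne_zero_iff _).1 hy
    have h5 : v.valuation F (x0 / y0) ≤ 1 := by
      have h6 : v.valuation F (x0 / y0) ^ 2 ≤ 1 := by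
        rw [map_div₀, div_pow, h4]
        have : v.valuation F x0 ^ 2 / v.valuation F x0 ^ 3 = (v.valuation F x0)⁻¹ := by
          field_simp
        rw [this]
        exact (inv_le_one₀ (lt_trans zero_lt_one h1)).2 h1.le
      exact (pow_le_one_iff two_ne_zero).1 h6
    have h7 : v.valuation F (x0 ^ 3 / y0 ^ 2) = 1 := by
      rw [map_div₀, map_pow, map_pow, h4]
      exact div_self (pow_ne_zero _ hx)
    obtain ⟨n1, d1, e1⟩ := v.exists_primeCompl_mul_eq_of_integer _ h5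
    obtain ⟨n2, d2, e2⟩ := v.exists_primeCompl_mul_eq_of_integer _ h7.le
    have hn2 : n2 ∉ v.asIdeal := by
      rw [← v.valuation_eq_one_iff_notMem (K := F), ← e2, map_mul, h7, one_mul,
        v.valuation_eq_one_iff_notMem]
      exact d2.2
    refine ⟨n1 * d2, d1 ^ 2 * d2 * n2, ?_, Or.inr ?_⟩
    · rw [cmul, cmul, cmul, cpow, ← calg n1, ← calg n2, ← e1, ← e2, calg, calg]
      field_simp
    · intro h
      rcases v.isPrime.mem_or_mem h with h | h
      · rcases v.isPrime.mem_or_mem h with h | h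
        · exact d1.2 (v.isPrime.mem_of_pow_mem 2 h)
        · exact d2.2 h
      · exact hn2 h

end den

section lat

variable {F L : Type} [Field F] [NumberField F] [Field L] [NumberField L] [Algebra F L]
variable {f : (𝓞 F)[X]} {θ : L}

/-- the lattice -/
noncomputable def Lam (θ : L) (x0 y0 : F) : Submodule (𝓞 F) L := Submodule.span (𝓞 F)
  ({z | ∃ c ∈ cI x0, ∃ r, InR F θ r ∧ z = algebraMap F L (c : F) * ((algebraMap F L x0 - θ) * r)} ∪
   {z | ∃ c ∈ cI x0, ∃ c' ∈ cI x0, ∃ r, InR F θ r ∧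
      z = algebraMap F L ((c : F) * (c' : F)) * (algebraMap F L y0 * r)})

theorem sm (m : 𝓞 F) (x : L) : m • x = algebraMap F L (m : F) * x := Algebra.smul_def m x

theorem mem1 {x0 y0 : F} {c : 𝓞 F} (hc : c ∈ cI x0) {r : L} (hr : InR F θ r) :
    algebraMap F L (c : F) * ((algebraMap F L x0 - θ) * r) ∈ Lam θ x0 y0 :=
  Submodule.subset_span (Or.inl ⟨c, hc, r, hr, rfl⟩)

theorem mem2 {x0 y0 : F} {c c' : 𝓞 F} (hc : c ∈ cI x0) (hc' : c' ∈ cI x0) {r : L}
    (hr : InR F θ r) :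
    algebraMap F L ((c : F) * (c' : F)) * (algebraMap F L y0 * r) ∈ Lam θ x0 y0 :=
  Submodule.subset_span (Or.inr ⟨c, hc, c', hc', r, hr, rfl⟩)

theorem al_el (x0 : F) : algebraMap F L x0 - θ = el θ x0 (-1) 0 := by
  simp only [el, map_neg, map_one, map_zero]
  ring

theorem al_ne (hG : IsGen 1 f θ) {A B : F} (hf : fF f = X ^ 3 + C A * X + C B) (x0 : F) :
    algebraMap F L x0 - θ ≠ 0 := by
  intro h
  rw [al_el] at h
  have h0 : el θ x0 (-1) 0 = el θ (0 : F) 0 0 := by
    rw [h]; simp [el]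
  have := (el_inj hG hf h0).2.1
  norm_num at this

theorem ht_mul (hG : IsGen 1 f θ) {A B x0 y0 : F} (hf : fF f = X ^ 3 + C A * X + C B)
    (hE : y0 ^ 2 = x0 ^ 3 + A * x0 + B) :
    (algebraMap F L x0 - θ) * el θ (x0 ^ 2 + A) x0 1 = algebraMap F L y0 ^ 2 := by
  rw [al_el, el_mul hG hf, ← map_pow, hE]
  simp only [el, map_sub, map_add, map_mul, map_pow, map_neg, map_one, map_zero]
  ring

theorem y_ne (hG : IsGen 1 f θ) {A B x0 y0 : F} (hf : fF f = X ^ 3 + C A * X + C B)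
    (hE : y0 ^ 2 = x0 ^ 3 + A * x0 + B) : y0 ≠ 0 := by
  rintro rfl
  have h := ht_mul hG hf hE
  rw [map_zero, zero_pow two_ne_zero] at h
  rcases mul_eq_zero.1 h with h | h
  · exact al_ne hG hf x0 h
  · have h0 : el θ (x0 ^ 2 + A) x0 1 = el θ (0 : F) 0 0 := by
      rw [h]; simp [el]
    exact one_ne_zero (el_inj hG hf h0).2.2

theorem lam_stab (hG : IsGen 1 f θ) {A B : 𝓞 F} (hf : fF f = X ^ 3 + C (A : F) * X + C (B : F))
    {x0 y0 : F} (x : L) (hx : x ∈ Lam θ x0 y0) : θ * x ∈ Lam θ x0 y0 := by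
  unfold Lam at hx
  induction hx using Submodule.span_induction with
  | mem x h =>
    rcases h with ⟨c, hc, r, hr, rfl⟩ | ⟨c, hc, c', hc', r, hr, rfl⟩
    · have e : θ * (algebraMap F L (c : F) * ((algebraMap F L x0 - θ) * r)) =
          algebraMap F L (c : F) * ((algebraMap F L x0 - θ) * (θ * r)) := by ring
      rw [e]
      exact mem1 hc (InR.th.mul hG hf hr)
    · have e : θ * (algebraMap F L ((c : F) * (c' : F)) * (algebraMap F L y0 * r)) =
          algebraMap F L ((c : F) * (c' : F)) * (algebraMap F L y0 * (θ * r)) := by ring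
      rw [e]
      exact mem2 hc hc' (InR.th.mul hG hf hr)
  | zero => rw [mul_zero]; exact Submodule.zero_mem _
  | add x y _ _ h1 h2 => rw [mul_add]; exact Submodule.add_mem _ h1 h2
  | smul a x _ h =>
    rw [mul_smul_comm]
    exact Submodule.smul_mem _ a h

theorem lam_fg (hG : IsGen 1 f θ) {x0 y0 : F} : (Lam θ x0 y0).FG := by
  have h1 : (Submodule.span (𝓞 F) ({(algebraMap F L x0 - θ), (algebraMap F L x0 - θ) * θ,
      (algebraMap F L x0 - θ) * θ ^ 2, algebraMap F L y0, algebraMap F L y0 * θ,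
      algebraMap F L y0 * θ ^ 2} : Set L)).FG := Submodule.fg_span (Set.toFinite _)
  refine h1.of_le ?_
  have key : ∀ z : L, (∀ i : ℕ, i < 3 → z * θ ^ i ∈ (Submodule.span (𝓞 F)
      ({(algebraMap F L x0 - θ), (algebraMap F L x0 - θ) * θ,
      (algebraMap F L x0 - θ) * θ ^ 2, algebraMap F L y0, algebraMap F L y0 * θ,
      algebraMap F L y0 * θ ^ 2} : Set L))) → ∀ m : 𝓞 F, ∀ r : L, InR F θ r →
      algebraMap F L (m : F) * (z * r) ∈ (Submodule.span (𝓞 F)
      ({(algebraMap F L x0 - θ), (algebraMap F L x0 - θ) * θ,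
      (algebraMap F L x0 - θ) * θ ^ 2, algebraMap F L y0, algebraMap F L y0 * θ,
      algebraMap F L y0 * θ ^ 2} : Set L)) := by
    rintro z hz m _ ⟨a, b, c, rfl⟩
    rw [← sm]
    refine Submodule.smul_mem _ m ?_
    have e : z * el θ (a : F) (b : F) (c : F) = a • (z * θ ^ 0) + b • (z * θ ^ 1) +
        c • (z * θ ^ 2) := by
      rw [sm, sm, sm, el]
      ring
    rw [e]
    exact Submodule.add_mem _ (Submodule.add_mem _ (Submodule.smul_mem _ _ (hz 0 (by norm_num)))
      (Submodule.smul_mem _ _ (hz 1 (by norm_num)))) (Submodule.smul_mem _ _ (hz 2 (by norm_num)))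
  unfold Lam
  rw [Submodule.span_le]
  rintro z (⟨c, hc, r, hr, rfl⟩ | ⟨c, hc, c', hc', r, hr, rfl⟩)
  · refine key _ ?_ _ _ hr
    intro i hi
    apply Submodule.subset_span
    interval_cases i <;> simp
  · have e : algebraMap F L ((c : F) * (c' : F)) = algebraMap F L ((c * c' : 𝓞 F) : F) := by
      rw [cmul]
    rw [e]
    refine key _ ?_ _ _ hr
    intro i hi
    apply Submodule.subset_span
    interval_cases i <;> simp

theorem exists_int3 (a b c : F) : ∃ m : 𝓞 F, m ≠ 0 ∧ ∃ a' b' c' : 𝓞 F, (a' : F) = m * a ∧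
    (b' : F) = m * b ∧ (c' : F) = m * c := by
  have key : ∀ x : F, ∃ m : 𝓞 F, m ≠ 0 ∧ ∃ a' : 𝓞 F, (a' : F) = m * x := by
    intro x
    obtain ⟨p, q, hq, hpq⟩ := IsFractionRing.div_surjective (A := 𝓞 F) x
    have hq0 : q ≠ 0 := nonZeroDivisors.ne_zero hq
    have hqK : algebraMap (𝓞 F) F q ≠ 0 := by simpa using hq0
    refine ⟨q, hq0, p, ?_⟩
    rw [← hpq, calg, calg]
    rw [calg] at hqK
    field_simp
  obtain ⟨m1, h1, a', ha⟩ := key a
  obtain ⟨m2, h2, b', hb⟩ := key b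
  obtain ⟨m3, h3, c', hc⟩ := key c
  refine ⟨m1 * m2 * m3, mul_ne_zero (mul_ne_zero h1 h2) h3, a' * m2 * m3, b' * m1 * m3,
    c' * m1 * m2, ?_, ?_, ?_⟩
  · simp only [cmul]; rw [ha]; ring
  · simp only [cmul]; rw [hb]; ring
  · simp only [cmul]; rw [hc]; ring

theorem lam_span (hG : IsGen 1 f θ) {A B : F} (hf : fF f = X ^ 3 + C A * X + C B) {x0 y0 : F}
    (x : L) : ∃ m : 𝓞 F, m ≠ 0 ∧ m • x ∈ Lam θ x0 y0 := by
  obtain ⟨c0, hc0, hc0'⟩ := exists_cI x0
  obtain ⟨a, b, c, hx⟩ := exists_el hG (x / (algebraMap F L x0 - θ))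
  obtain ⟨m, hm, a', b', c', ha, hb, hc⟩ := exists_int3 a b c
  refine ⟨c0 * m, mul_ne_zero hc0' hm, ?_⟩
  have hne := al_ne hG hf x0
  have e : (c0 * m) • x = algebraMap F L (c0 : F) * ((algebraMap F L x0 - θ) *
      el θ (a' : F) (b' : F) (c' : F)) := by
    rw [ha, hb, hc, ← el_smul, ← hx, sm, cmul, map_mul]
    field_simp
  rw [e]
  exact mem1 hc0 ⟨a', b', c', rfl⟩

theorem top_al (hG : IsGen 1 f θ) {A B : F} (hf : fF f = X ^ 3 + C A * X + C B) (x0 a b c : F) :
    hG.top ((algebraMap F L x0 - θ) * el θ a b c) = x0 * c - b := by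
  rw [al_el, el_mul hG hf, top_el]
  ring

theorem top_h (hG : IsGen 1 f θ) {A B : F} (hf : fF f = X ^ 3 + C A * X + C B) (x0 a b c : F) :
    hG.top (el θ (x0 ^ 2 + A) x0 1 * el θ a b c) = a + b * x0 + c * x0 ^ 2 := by
  rw [el_mul hG hf, top_el]
  ring

theorem lam_int (hG : IsGen 1 f θ) {A B : 𝓞 F} (hf : fF f = X ^ 3 + C (A : F) * X + C (B : F))
    {x0 y0 : F} (hE : y0 ^ 2 = x0 ^ 3 + (A : F) * x0 + (B : F)) (x : L) (hx : x ∈ Lam θ x0 y0)
    (y : L) (hy : y ∈ Lam θ x0 y0) :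
    IsIntegral ℤ (hG.top (x * y / (algebraMap F L x0 - θ))) := by
  have hne := al_ne hG hf x0
  have hy0 := y_ne hG hf hE
  -- mixed terms
  have mix : ∀ c ∈ cI x0, ∀ r, InR F θ r → ∀ d ∈ cI x0, ∀ d' ∈ cI x0, ∀ s, InR F θ s →
      IsIntegral ℤ (hG.top ((algebraMap F L (c : F) * ((algebraMap F L x0 - θ) * r)) *
        (algebraMap F L ((d : F) * (d' : F)) * (algebraMap F L y0 * s)) /
          (algebraMap F L x0 - θ))) := by
    intro c hc r hr d hd d' hd' s hs
    obtain ⟨a1, a2, a3, e⟩ := hr.mul hG hf hs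
    have e1 : (algebraMap F L (c : F) * ((algebraMap F L x0 - θ) * r)) *
        (algebraMap F L ((d : F) * (d' : F)) * (algebraMap F L y0 * s)) /
          (algebraMap F L x0 - θ) =
        algebraMap F L ((c : F) * d * d' * y0) * (r * s) := by
      simp only [map_mul]
      field_simp
    rw [e1, e, top_smul, top_el]
    exact (cI3 hE hc hd hd').mul (int_of a3)
  have main : ∀ x y : L, x ∈ ({z | ∃ c ∈ cI x0, ∃ r, InR F θ r ∧
        z = algebraMap F L (c : F) * ((algebraMap F L x0 - θ) * r)} ∪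
      {z | ∃ c ∈ cI x0, ∃ c' ∈ cI x0, ∃ r, InR F θ r ∧
        z = algebraMap F L ((c : F) * (c' : F)) * (algebraMap F L y0 * r)} : Set L) →
      y ∈ ({z | ∃ c ∈ cI x0, ∃ r, InR F θ r ∧
        z = algebraMap F L (c : F) * ((algebraMap F L x0 - θ) * r)} ∪
      {z | ∃ c ∈ cI x0, ∃ c' ∈ cI x0, ∃ r, InR F θ r ∧
        z = algebraMap F L ((c : F) * (c' : F)) * (algebraMap F L y0 * r)} : Set L) →
      IsIntegral ℤ (hG.top (x * y / (algebraMap F L x0 - θ))) := by
    rintro _ _ (⟨c, hc, r, hr, rfl⟩ | ⟨c, hc, c', hc', r, hr, rfl⟩)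
      (⟨d, hd, s, hs, rfl⟩ | ⟨d, hd, d', hd', s, hs, rfl⟩)
    · obtain ⟨a1, a2, a3, e⟩ := hr.mul hG hf hs
      have e1 : (algebraMap F L (c : F) * ((algebraMap F L x0 - θ) * r)) *
          (algebraMap F L (d : F) * ((algebraMap F L x0 - θ) * s)) /
            (algebraMap F L x0 - θ) =
          algebraMap F L ((c : F) * d) * ((algebraMap F L x0 - θ) * (r * s)) := by
        simp only [map_mul]
        field_simp
      rw [e1, e, top_smul, top_al hG hf]
      have e2 : (c : F) * d * (x0 * (a3 : F) - (a2 : F)) =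
          ((c : F) * d * x0) * (a3 : F) - ((c : F) * d) * (a2 : F) := by ring
      rw [e2]
      exact ((cI2 hc hd).mul (int_of a3)).sub (((int_of c).mul (int_of d)).mul (int_of a2))
    · exact mix c hc r hr d hd d' hd' s hs
    · rw [mul_comm (algebraMap F L ((c : F) * (c' : F)) * (algebraMap F L y0 * r))]
      exact mix d hd s hs c hc c' hc' r hr
    · obtain ⟨a1, a2, a3, e⟩ := hr.mul hG hf hs
      have e1 : (algebraMap F L ((c : F) * (c' : F)) * (algebraMap F L y0 * r)) *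
          (algebraMap F L ((d : F) * (d' : F)) * (algebraMap F L y0 * s)) /
            (algebraMap F L x0 - θ) =
          algebraMap F L ((c : F) * c' * d * d') *
            (el θ (x0 ^ 2 + (A : F)) x0 1 * (r * s)) := by
        have h := ht_mul hG hf hE
        rw [div_eq_iff hne]
        simp only [map_mul]
        linear_combination (- (algebraMap F L (c : F) * algebraMap F L (c' : F) *
          algebraMap F L (d : F) * algebraMap F L (d' : F) * (r * s))) * h
      rw [e1, e, top_smul, top_h hG hf]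
      have e2 : (c : F) * c' * d * d' * ((a1 : F) + (a2 : F) * x0 + (a3 : F) * x0 ^ 2) =
          (c : F) * c' * d * d' * (a1 : F) + ((c : F) * c' * x0) * ((d : F) * d') * (a2 : F) +
            ((c : F) * c' * x0) * ((d : F) * d' * x0) * (a3 : F) := by ring
      rw [e2]
      refine IsIntegral.add (IsIntegral.add ?_ ?_) ?_
      · exact ((((int_of c).mul (int_of c')).mul (int_of d)).mul (int_of d')).mul (int_of a1)
      · exact ((cI2 hc hc').mul ((int_of d).mul (int_of d'))).mul (int_of a2)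
      · exact ((cI2 hc hc').mul (cI2 hd hd')).mul (int_of a3)
  have step : ∀ x : L, x ∈ ({z | ∃ c ∈ cI x0, ∃ r, InR F θ r ∧
        z = algebraMap F L (c : F) * ((algebraMap F L x0 - θ) * r)} ∪
      {z | ∃ c ∈ cI x0, ∃ c' ∈ cI x0, ∃ r, InR F θ r ∧
        z = algebraMap F L ((c : F) * (c' : F)) * (algebraMap F L y0 * r)} : Set L) →
      ∀ y ∈ Lam θ x0 y0, IsIntegral ℤ (hG.top (x * y / (algebraMap F L x0 - θ))) := by
    intro x hx y hy
    unfold Lam at hy
    induction hy using Submodule.span_induction with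
    | mem y h => exact main x y hx h
    | zero => rw [mul_zero, zero_div, map_zero]; exact isIntegral_zero
    | add y z _ _ h1 h2 => rw [mul_add, add_div, map_add]; exact h1.add h2
    | smul a y _ h =>
      have e : x * (a • y) / (algebraMap F L x0 - θ) =
          algebraMap F L (a : F) * (x * y / (algebraMap F L x0 - θ)) := by
        rw [sm]; ring
      rw [e, top_smul]
      exact (int_of a).mul h
  unfold Lam at hx
  induction hx using Submodule.span_induction with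
  | mem x h => exact step x h y hy
  | zero => rw [zero_mul, zero_div, map_zero]; exact isIntegral_zero
  | add x z _ _ h1 h2 => rw [add_mul, add_div, map_add]; exact h1.add h2
  | smul a x _ h =>
    have e : (a • x) * y / (algebraMap F L x0 - θ) =
        algebraMap F L (a : F) * (x * y / (algebraMap F L x0 - θ)) := by
      rw [sm]; ring
    rw [e, top_smul]
    exact (int_of a).mul h

theorem lam_dual (hG : IsGen 1 f θ) {A B : 𝓞 F} (hf : fF f = X ^ 3 + C (A : F) * X + C (B : F))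
    {x0 y0 : F} (hE : y0 ^ 2 = x0 ^ 3 + (A : F) * x0 + (B : F)) (y : L)
    (h : ∀ x ∈ Lam θ x0 y0, IsIntegral ℤ (hG.top (x * y / (algebraMap F L x0 - θ)))) :
    y ∈ Lam θ x0 y0 := by
  have hne := al_ne hG hf x0
  have hy0 := y_ne hG hf hE
  have hy0L : algebraMap F L y0 ≠ 0 := by
    rw [Ne, map_eq_zero]; exact hy0
  obtain ⟨Y0, Y1, Y2, hy⟩ := exists_el hG y
  have hth : θ = el θ (0 : F) 1 0 := by simp [el]
  have hth2 : θ ^ 2 = el θ (0 : F) 0 1 := by simp [el]
  -- the coordinates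
  have hcoord : ∀ c ∈ cI x0, IsIntegral ℤ ((c : F) * Y0) ∧ IsIntegral ℤ ((c : F) * Y1) ∧
      IsIntegral ℤ ((c : F) * Y2) := by
    intro c hc
    have k : ∀ s : L, InR F θ s → IsIntegral ℤ ((c : F) * hG.top (s * y)) := by
      intro s hs
      have h1 := h _ (mem1 (y0 := y0) hc hs)
      have e : algebraMap F L (c : F) * ((algebraMap F L x0 - θ) * s) * y /
          (algebraMap F L x0 - θ) = algebraMap F L (c : F) * (s * y) := by
        field_simp
      rwa [e, top_smul] at h1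
    have k2 := k 1 InR.one
    rw [one_mul, hy, top_el] at k2
    have k1 := k θ InR.th
    have hty : θ * y = el θ (0 : F) 1 0 * el θ Y0 Y1 Y2 := by rw [← hth, hy]
    rw [hty, el_mul hG hf, top_el] at k1
    have k0 := k (θ ^ 2) (by rw [sq]; exact InR.th.mul hG hf InR.th)
    rw [hy, hth2, el_mul hG hf, top_el] at k0
    refine ⟨?_, ?_, k2⟩
    · have e : (c : F) * Y0 = (c : F) * (0 * Y2 + 0 * Y1 + 1 * Y0 - (A : F) * (1 * Y2)) +
          (A : F) * ((c : F) * Y2) := by ring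
      rw [e]
      exact k0.add ((int_of A).mul k2)
    · have e : (c : F) * Y1 = (c : F) * (0 * Y2 + 1 * Y1 + 0 * Y0 - (A : F) * (0 * Y2)) := by ring
      rw [e]
      exact k1
  obtain ⟨u, hu⟩ : ∃ u : F, u = (Y0 + Y1 * x0 + Y2 * x0 ^ 2) / y0 := ⟨_, rfl⟩
  have huint : ∀ c ∈ cI x0, ∀ c' ∈ cI x0, IsIntegral ℤ ((c : F) * c' * u) := by
    intro c hc c' hc'
    have h1 := h _ (mem2 (y0 := y0) hc hc' InR.one)
    have e : algebraMap F L ((c : F) * (c' : F)) * (algebraMap F L y0 * 1) * y /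
        (algebraMap F L x0 - θ) = algebraMap F L ((c : F) * c' / y0) *
          (el θ (x0 ^ 2 + (A : F)) x0 1 * el θ Y0 Y1 Y2) := by
      have h2 := ht_mul hG hf hE
      rw [hy, div_eq_iff hne, map_div₀]
      field_simp
      linear_combination (-(algebraMap F L ((c : F) * (c' : F)) * el θ Y0 Y1 Y2)) * h2
    rw [e, top_smul, top_h hG hf] at h1
    have e2 : (c : F) * c' * u = (c : F) * c' / y0 * (Y0 + Y1 * x0 + Y2 * x0 ^ 2) := by
      rw [hu]; ring
    rw [e2]
    exact h1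
  have hdec : y = algebraMap F L y0 * algebraMap F L u -
      (algebraMap F L x0 - θ) * el θ (Y1 + Y2 * x0) Y2 0 := by
    have e1 : y0 * u = Y0 + Y1 * x0 + Y2 * x0 ^ 2 := by
      rw [hu]; field_simp
    rw [← map_mul, e1, hy]
    simp only [el, map_add, map_mul, map_pow, map_zero]
    ring
  -- the ideal
  have hI4 : ∀ c ∈ cI x0, c ^ 4 • y ∈ Lam θ x0 y0 := by
    intro c hc
    obtain ⟨u', hu'⟩ := (int_iff _).1 (huint c hc c hc)
    obtain ⟨-, h1, h2⟩ := hcoord c hc
    obtain ⟨z1, hz1⟩ := (int_iff _).1 h1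
    obtain ⟨z2, hz2⟩ := (int_iff _).1 h2
    obtain ⟨z3, hz3⟩ := (int_iff _).1 (mem_cI.1 hc)
    have e : c ^ 4 • y = algebraMap F L ((c : F) * (c : F)) * (algebraMap F L y0 *
        algebraMap F L (u' : F)) - algebraMap F L (c : F) * ((algebraMap F L x0 - θ) *
          el θ (((c ^ 2 * z1 + z2 * z3 : 𝓞 F)) : F) ((c ^ 2 * z2 : 𝓞 F) : F) ((0 : 𝓞 F) : F)) := by
      have e3 : el θ (((c ^ 2 * z1 + z2 * z3 : 𝓞 F)) : F) ((c ^ 2 * z2 : 𝓞 F) : F)
          ((0 : 𝓞 F) : F) = algebraMap F L ((c : F) ^ 3) * el θ (Y1 + Y2 * x0) Y2 0 := by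
        rw [el_smul, cadd, cmul, cmul, cmul, cpow, czero, hz1, hz2, hz3]
        congr 1 <;> ring
      rw [e3, hu', sm, cpow]
      nth_rewrite 1 [hdec]
      simp only [map_mul, map_pow]
      ring
    rw [e]
    exact Submodule.sub_mem _ (mem2 hc hc (InR.of u')) (mem1 hc ⟨_, _, _, rfl⟩)
  have hI2 : ∀ c ∈ cI x0, ∀ a : 𝓞 F, (a : F) = (c : F) ^ 2 * x0 → a ^ 2 • y ∈ Lam θ x0 y0 := by
    intro c hc a ha
    obtain ⟨h0, h1, h2⟩ := hcoord c hc
    obtain ⟨z0, hz0⟩ := (int_iff _).1 h0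
    obtain ⟨z1, hz1⟩ := (int_iff _).1 h1
    obtain ⟨z2, hz2⟩ := (int_iff _).1 h2
    have hcy : InR F θ (algebraMap F L (c : F) * y) := ⟨z0, z1, z2, by
      rw [hy, el_smul, hz0, hz1, hz2]⟩
    -- `a y = c α (c y) + c² θ y`
    have e1 : a • y = algebraMap F L (c : F) * ((algebraMap F L x0 - θ) *
        (algebraMap F L (c : F) * y)) + (c ^ 2) • (θ * y) := by
      rw [sm, sm, ha, cpow]
      simp only [map_mul, map_pow]
      ring
    have e2 : a ^ 2 • y = a • (algebraMap F L (c : F) * ((algebraMap F L x0 - θ) *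
        (algebraMap F L (c : F) * y))) + (c ^ 2) • (θ * (algebraMap F L (c : F) *
          ((algebraMap F L x0 - θ) * (algebraMap F L (c : F) * y)))) +
            θ * (θ * (c ^ 4 • y)) := by
      have : a ^ 2 • y = a • (a • y) := by rw [smul_smul, sq]
      rw [this, e1, smul_add, smul_comm a (c ^ 2), ← mul_smul_comm a θ y, e1]
      simp only [sm, cpow, map_pow]
      ring
    rw [e2]
    refine Submodule.add_mem _ (Submodule.add_mem _ (Submodule.smul_mem _ _ (mem1 hc hcy))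
      (Submodule.smul_mem _ _ (lam_stab hG hf _ (mem1 hc hcy)))) ?_
    exact lam_stab hG hf _ (lam_stab hG hf _ (hI4 c hc))
  obtain ⟨I1, hI1⟩ : ∃ I1 : Ideal (𝓞 F), ∀ a, a ∈ I1 ↔ a • y ∈ Lam θ x0 y0 := by
    refine ⟨(Lam θ x0 y0).comap (LinearMap.toSpanSingleton (𝓞 F) L y), fun a => ?_⟩
    rw [Submodule.mem_comap, LinearMap.toSpanSingleton_apply]
  have htop : I1 = ⊤ := by
    by_contra hn
    obtain ⟨M, hM, hle⟩ := Ideal.exists_le_maximal I1 hn
    obtain ⟨c0, hc0, hc0'⟩ := exists_cI x0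
    have hMb : M ≠ ⊥ := by
      intro hb
      have h1 : c0 ^ 4 ∈ M := hle ((hI1 _).2 (hI4 c0 hc0))
      rw [hb, Ideal.mem_bot] at h1
      exact hc0' (pow_eq_zero_iff (by norm_num) |>.1 h1)
    obtain ⟨c, a, ha, hor⟩ := loc hE ⟨M, hM.isPrime, hMb⟩
    have hc : c ∈ cI x0 := by
      rw [mem_cI, ← ha]
      exact int_of a
    rcases hor with h1 | h1
    · exact h1 (hM.isPrime.mem_of_pow_mem 4 (hle ((hI1 _).2 (hI4 c hc))))
    · exact h1 (hM.isPrime.mem_of_pow_mem 2 (hle ((hI1 _).2 (hI2 c hc a ha))))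
  have h1 : (1 : 𝓞 F) ∈ I1 := by rw [htop]; exact Submodule.mem_top
  have h2 := (hI1 1).1 h1
  rwa [one_smul] at h2

/-- **The lattice of a point.** -/
theorem lam_lat (hG : IsGen 1 f θ) {A B : 𝓞 F} (hf : fF f = X ^ 3 + C (A : F) * X + C (B : F))
    {x0 y0 : F} (hE : y0 ^ 2 = x0 ^ 3 + (A : F) * x0 + (B : F)) :
    Lat hG (algebraMap F L x0 - θ) (Lam θ x0 y0) where
  fg := lam_fg hG
  span := lam_span hG hf
  stab := lam_stab hG hf
  int := fun x hx y hy => lam_int hG hf hE x hx y hy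
  dual := fun y h => lam_dual hG hf hE y h

/-- the norm of `x₀ - θ` -/
theorem norm_al (hG : IsGen 1 f θ) (x0 : F) :
    Algebra.norm F (algebraMap F L x0 - θ) = (fF f).eval x0 := by
  let pb : PowerBasis F L := ⟨θ, 2 * 1 + 1, hG.basis, fun i => hG.basis_apply i⟩
  have hdeg : (minpoly F θ).natDegree = 2 * 1 + 1 := pb.natDegree_minpoly
  have hint : IsIntegral F θ := pb.isIntegral_gen
  have hmon : (fF f).Monic := hG.mon.map _
  have hd : minpoly F θ ∣ fF f := minpoly.dvd F θ hG.root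
  have he : fF f = minpoly F θ :=
    Polynomial.eq_of_monic_of_dvd_of_natDegree_le (minpoly.monic hint) hmon hd (by
      rw [hdeg, hG.mon.natDegree_map, hG.deg])
  have h1 : (Algebra.leftMulMatrix pb.basis pb.gen).charpoly = minpoly F pb.gen :=
    charpoly_leftMulMatrix pb
  rw [he]
  have h2 : minpoly F θ = (Algebra.leftMulMatrix pb.basis θ).charpoly := h1.symm
  rw [h2, Matrix.eval_charpoly, Algebra.norm_eq_matrix_det pb.basis, map_sub]
  congr 2
  rw [AlgHom.commutes]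
  rfl

end lat

end Pool.Agent.P8H15.BR
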