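import Pool.Agent.P8H15.BR.LB
import Pool.Agent.P8H15.BR.Cnt
import Pool.Agent.K4H55.BD.Alg
import Pool.Agent.Y155.QT14b
import Pool.Agent.N61.PF.Fin1

/-!
# Points modulo `2 E(F)` and classes of pairs of matrices
-/

set_option autoImplicit false
set_option linter.all false

open Polynomial Matrix NumberField IsDedekindDomain
open scoped Classical

namespace Pool.Agent.P8H15.BR

open Pool.Agent.N783.PF
open Pool.Agent.N352.PJ (Mt Typ dd)
open Pool.Agent.N783.PQ (chp form Dist Gap Mid Deep eA eB eU uu)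
open Pool.Agent.N438.PF
open Pool.Agent.K4H55.BD (crv mw halve_sq equation_iff)
open WeierstrassCurve

section pts

variable {K : Type} [Field K]

/-- the third point of a line -/
theorem line_id {a b x1 y1 x2 y2 l v : K} (hx : x1 ≠ x2) (h1 : y1 ^ 2 = x1 ^ 3 + a * x1 + b)
    (h2 : y2 ^ 2 = x2 ^ 3 + a * x2 + b) (e1 : y1 = l * x1 + v) (e2 : y2 = l * x2 + v) :
    x1 * x2 + (x1 + x2) * (l ^ 2 - x1 - x2) = a - 2 * l * v ∧
      x1 * x2 * (l ^ 2 - x1 - x2) = v ^ 2 - b := by
  have hd : x1 - x2 ≠ 0 := sub_ne_zero.2 hx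
  have k1 : l ^ 2 * (x1 + x2) + 2 * l * v = x1 ^ 2 + x1 * x2 + x2 ^ 2 + a := by
    apply mul_left_cancel₀ hd
    rw [e1] at h1
    rw [e2] at h2
    linear_combination h1 - h2
  have k2 : x1 * x2 + (x1 + x2) * (l ^ 2 - x1 - x2) = a - 2 * l * v := by
    linear_combination k1
  refine ⟨k2, ?_⟩
  rw [e1] at h1
  linear_combination x1 * k2 - h1

/-- **The product of three `x - θ`.** -/
theorem add_sq {F L : Type} [Field F] [NumberField F] [Field L] [NumberField L] [Algebra F L]
    {f : (𝓞 F)[X]} {θ : L} (hG : IsGen 1 f θ) {A B : F} (hf : fF f = X ^ 3 + C A * X + C B)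
    {x1 y1 x2 y2 : F} (h1 : (crv A B).toAffine.Nonsingular x1 y1)
    (h2 : (crv A B).toAffine.Nonsingular x2 y2)
    (hsq : ∃ β : L, algebraMap F L x1 - θ = β ^ 2 * (algebraMap F L x2 - θ)) :
    ∃ Q : (crv A B).toAffine.Point, Affine.Point.some x1 y1 h1 + Affine.Point.some x2 y2 h2 =
      Q + Q := by
  have E1 := equation_iff.1 h1.1
  have E2 := equation_iff.1 h2.1
  have hneg : ∀ x y : F, (crv A B).toAffine.negY x y = -y := by
    intro x y
    simp only [Affine.negY, crv, WeierstrassCurve.toAffine]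
    ring
  by_cases hx : x1 = x2
  · subst hx
    have hyy : y1 ^ 2 = y2 ^ 2 := by rw [E1, E2]
    rcases sq_eq_sq_iff_eq_or_eq_neg.1 hyy with hy | hy
    · subst hy
      exact ⟨_, rfl⟩
    · refine ⟨0, ?_⟩
      rw [add_zero]
      exact Affine.Point.add_of_Y_eq rfl (by rw [hneg, hy])
  · obtain ⟨β, hβ⟩ := hsq
    rw [Affine.Point.add_of_X_ne hx]
    have hsl : (crv A B).toAffine.slope x1 x2 y1 y2 = (y1 - y2) / (x1 - x2) :=
      Affine.slope_of_X_ne hx
    obtain ⟨l, hl⟩ : ∃ l : F, l = (crv A B).toAffine.slope x1 x2 y1 y2 := ⟨_, rfl⟩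
    have hd : x1 - x2 ≠ 0 := sub_ne_zero.2 hx
    have hl2 : l * (x1 - x2) = y1 - y2 := by
      rw [hl, hsl]
      field_simp
    obtain ⟨v, hv⟩ : ∃ v : F, v = y1 - l * x1 := ⟨_, rfl⟩
    obtain ⟨k1, k2⟩ := line_id hx E1 E2 (by rw [hv]; ring)
      (by rw [hv]; linear_combination hl2 : y2 = l * x2 + v)
    have hX : (crv A B).toAffine.addX x1 x2 ((crv A B).toAffine.slope x1 x2 y1 y2) =
        l ^ 2 - x1 - x2 := by
      rw [← hl]
      simp only [Affine.addX, crv, WeierstrassCurve.toAffine]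
      ring
    have hth := root3 hG hf
    have hne1 : algebraMap F L x1 - θ ≠ 0 := al_ne hG hf x1
    have hne2 : algebraMap F L x2 - θ ≠ 0 := al_ne hG hf x2
    obtain ⟨Q, hQ⟩ := halve_sq (K := F) (L := L) two_ne_zero (a := A) (b := B) (θ := θ)
      (by linear_combination hth)
      (fun p q r h => el_inj hG hf (a := p) (b := q) (c := r) (a' := 0) (b' := 0) (c' := 0)
        (by
          have e0 : el θ (0 : F) 0 0 = 0 := by simp [el]
          rw [e0]
          exact h))
      (fun β => exists_el hG β)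
      (Affine.nonsingular_add h1 h2 fun hxy => hx hxy.left) (by
      rw [hX]
      have key : (algebraMap F L x1 - θ) * (algebraMap F L x2 - θ) *
          (algebraMap F L (l ^ 2 - x1 - x2) - θ) =
          (algebraMap F L l * θ + algebraMap F L v) ^ 2 := by
        have j1 := congrArg (algebraMap F L) k1
        have j2 := congrArg (algebraMap F L) k2
        simp only [map_add, map_sub, map_mul, map_pow, map_ofNat] at j1 j2 ⊢
        linear_combination j2 - θ * j1 - hth
      refine ⟨(algebraMap F L l * θ + algebraMap F L v) / (β * (algebraMap F L x2 - θ)), ?_⟩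
      have hβ0 : β ≠ 0 := by
        rintro rfl
        rw [zero_pow two_ne_zero, zero_mul] at hβ
        exact hne1 hβ
      rw [div_mul_div_comm, eq_div_iff (by
        exact mul_ne_zero (mul_ne_zero hβ0 hne2) (mul_ne_zero hβ0 hne2))]
      rw [← sq, ← sq, ← key, hβ]
      ring)
    exact ⟨Q, hQ.symm⟩

end pts

/-- the classes with characteristic polynomial `f` -/
def KK {F : Type} [Field F] [NumberField F] (N c : ℕ) (f : (𝓞 F)[X]) :
    Set (Set (Mt 1 F × Mt 1 F)) :=
  {k | CBad 1 N c ∅ (fun _ => ⊥) (fun _ => 0) k ∧ ∀ M ∈ k, chp M.1 M.2 = fF f}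

theorem KK_disj {F : Type} [Field F] [NumberField F] {N c : ℕ} {f f' : (𝓞 F)[X]}
    (h : f ≠ f') : Disjoint (KK N c f) (KK N c f') := by
  rw [Set.disjoint_left]
  rintro k ⟨hk, h1⟩ ⟨-, h2⟩
  apply h
  obtain ⟨w, -, -, -, A, B, -, -, rfl⟩ := hk
  have e1 := h1 _ (self_mem _ _)
  have e2 := h2 _ (self_mem _ _)
  exact Polynomial.map_injective (algebraMap (𝓞 F) F) RingOfIntegers.coe_injective
    (e1.symm.trans e2)

/-- **`2 ^ rank` is at most the number of classes plus one.** -/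
theorem rank_le (t1 : S_TYP) (t2 : S_MAJ) (t3 : S_CHI) (t4 : S_SQ) (t5 : S_GEN) (F : Type)
    [Field F] [NumberField F] : ∃ κ : ℕ, ∀ (a b : 𝓞 F) (B N : ℕ),
    Ht 1 B (Pool.Agent.N61.PF.pol a b) → Irreducible (fF (Pool.Agent.N61.PF.pol a b)) →
    2 ^ κ * B ≤ 4 ^ N → (KK N κ (Pool.Agent.N61.PF.pol a b)).Finite →
    2 ^ Module.finrank ℤ (crv (a : F) (b : F)).toAffine.Point ≤
      1 + (KK N κ (Pool.Agent.N61.PF.pol a b)).ncard := by
  obtain ⟨κ, hκ⟩ := lb' t1 t2 t3 t4 1 F le_rfl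
  refine ⟨κ, fun a b B N hH hirr hBN hfin => ?_⟩
  obtain ⟨f, hfdef⟩ : ∃ f : (𝓞 F)[X], f = Pool.Agent.N61.PF.pol a b := ⟨_, rfl⟩
  rw [← hfdef] at hH hirr hfin ⊢
  have hf : fF f = X ^ 3 + C (a : F) * X + C (b : F) := by
    rw [hfdef]
    simp [fF, Pool.Agent.N61.PF.pol]
  obtain ⟨L, _, _, _, θ, hG⟩ := t5 F 1 f hH.mon hH.deg hirr
  have hth := root3 hG hf
  have hind : ∀ p q r : F, algebraMap F L p + algebraMap F L q * θ + algebraMap F L r * θ ^ 2 = 0 →
      p = 0 ∧ q = 0 ∧ r = 0 := fun p q r h =>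
    el_inj hG hf (a := p) (b := q) (c := r) (a' := 0) (b' := 0) (c' := 0) (by
      have e0 : el θ (0 : F) 0 0 = 0 := by simp [el]
      rw [e0]
      exact h)
  -- every point which is not twice a point gives a class
  have hcl : ∀ (x y : F) (h : (crv (a : F) (b : F)).toAffine.Nonsingular x y),
      (¬ ∃ Q : (crv (a : F) (b : F)).toAffine.Point, Q + Q = .some x y h) →
      ∃ k ∈ KK N κ f, ∃ (e : Fin (2 * 1 + 1) → L) (A A' : Mt 1 (𝓞 F)), LinearIndependent F e ∧
        Gr hG (algebraMap F L x - θ) e A A' ∧ k = cls (mF A) (mF A') := by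
    intro x y h hn
    have hE := equation_iff.1 h.1
    have hne := al_ne hG hf x
    have hnsq : ¬ IsSquare (algebraMap F L x - θ) := by
      intro hs
      exact hn (halve_sq two_ne_zero (by linear_combination hth) hind
        (fun β => exists_el hG β) h hs)
    have hnorm : IsSquare (Algebra.norm F (algebraMap F L x - θ)) := by
      rw [norm_al hG x, hf]
      refine ⟨y, ?_⟩
      simp only [eval_add, eval_mul, eval_pow, eval_X, eval_C]
      linear_combination -hE
    obtain ⟨e, w, A, A', hli, hGr, hT, hgap, hmid, hbox, hchp⟩ :=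
      hκ L f θ B N hG hH hBN _ _ hne hnorm (lam_lat hG hf hE) hnsq
    refine ⟨cls (mF A) (mF A'), ⟨⟨w, hT, hgap, Or.inl hmid, A, A',
      ⟨hbox, fun q hq => absurd hq (Finset.notMem_empty q),
        fun q hq => absurd hq (Finset.notMem_empty q)⟩, ?_, rfl⟩, ?_⟩, e, A, A', hli, hGr, rfl⟩
    · rw [hchp]; exact hirr
    · rintro M ⟨U, hU, rfl⟩
      rw [Pool.Agent.N530.PQ.chp_act hU, hchp]
  -- the relation between points and classes
  let Rel : Set (Mt 1 F × Mt 1 F) → (crv (a : F) (b : F)).toAffine.Point → Prop := fun k P =>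
    ∃ (x y : F) (h : (crv (a : F) (b : F)).toAffine.Nonsingular x y)
      (e : Fin (2 * 1 + 1) → L) (A A' : Mt 1 (𝓞 F)), P = .some x y h ∧ LinearIndependent F e ∧
        Gr hG (algebraMap F L x - θ) e A A' ∧ k = cls (mF A) (mF A')
  let rep : Set (Mt 1 F × Mt 1 F) → (crv (a : F) (b : F)).toAffine.Point := fun k =>
    if h : ∃ P, Rel k P then Classical.choose h else 0
  let U : Finset (crv (a : F) (b : F)).toAffine.Point := insert 0 (hfin.toFinset.image
    fun k => - rep k)
  have hUc : U.card ≤ 1 + (KK N κ f).ncard := by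
    refine (Finset.card_insert_le _ _).trans ?_
    rw [add_comm]
    refine Nat.add_le_add_left (Finset.card_image_le.trans ?_) 1
    rw [Set.ncard_eq_toFinset_card _ hfin]
  have hab : 4 * (a : F) ^ 3 + 27 * (b : F) ^ 2 ≠ 0 := by
    apply Pool.Agent.N61.PF.disc_ne
    rw [← hf]
    exact hirr
  refine (Pool.Agent.Y155.QT14.two_pow_finrank_le _ (mw F _ _ hab) U ?_).trans hUc
  intro P
  by_cases h2 : ∃ Q, Q + Q = P
  · obtain ⟨Q, hQ⟩ := h2
    exact ⟨0, Finset.mem_insert_self _ _, Q, by rw [hQ, zero_add]⟩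
  · rcases P with _ | ⟨x, y, h⟩
    · exfalso
      exact h2 ⟨0, add_zero 0⟩
    · obtain ⟨k, hk, e, A, A', hli, hGr, hk2⟩ := hcl x y h h2
      have hex : ∃ P, Rel k P := ⟨_, x, y, h, e, A, A', rfl, hli, hGr, hk2⟩
      have hrep : rep k = Classical.choose hex := by
        simp only [rep]
        rw [dif_pos hex]
      obtain ⟨x', y', h', e', A1, A1', hP', hli', hGr', hk'⟩ := Classical.choose_spec hex
      rw [← hrep] at hP'
      obtain ⟨β, hβ⟩ := sq_of_cls hG (al_ne hG hf x) (al_ne hG hf x') hli' hGr hGr'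
        (hk2.symm.trans hk')
      obtain ⟨Q, hQ⟩ := add_sq hG hf h h' ⟨β, hβ⟩
      refine ⟨- rep k, ?_, Q, ?_⟩
      · refine Finset.mem_insert_of_mem (Finset.mem_image_of_mem _ ?_)
        exact hfin.mem_toFinset.2 hk
      · rw [hP', ← hQ]
        abel

end Pool.Agent.P8H15.BR
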