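import Pool.Agent.P8H15.BR.Desc2
import Pool.Agent.P8H15.BR.Lat
import Pool.Agent.N61.PF.Fin1

/-!
# Curves with a rational point of order two: the bound for the rank, the number of such curves
-/

set_option autoImplicit false
set_option linter.all false

open WeierstrassCurve WeierstrassCurve.Affine IsDedekindDomain NumberField Polynomial
open scoped Classical

namespace Pool.Agent.P8H15.BR

open Pool.Agent.V11306.CM
open Pool.Agent.K4H55.BD (crv mw equation_iff)

section shift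

variable {F : Type} [Field F] [NumberField F]

theorem cinj {n : 𝓞 F} (h : (n : F) = 0) : n = 0 :=
  RingOfIntegers.coe_injective (h.trans (map_zero (algebraMap (𝓞 F) F)).symm)

theorem sh_ns {A B e a b : F} (ha : a = 3 * e) (hb : b = 3 * e ^ 2 + A)
    (he : e ^ 3 + A * e + B = 0) {x y : F} (h : (E a b).Nonsingular x y) :
    (crv A B).toAffine.Nonsingular (x + e) y := by
  rw [Affine.nonsingular_iff] at h ⊢
  obtain ⟨h1, h2⟩ := h
  rw [E_eq] at h1
  refine ⟨equation_iff.2 ?_, ?_⟩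
  · rw [h1, ha, hb]
    linear_combination (-1 : F) * he
  · simp only [E, crv, WeierstrassCurve.toAffine, negY] at h2 ⊢
    rcases h2 with h2 | h2
    · left
      intro h3
      apply h2
      rw [ha, hb]
      linear_combination h3
    · right
      intro h3
      apply h2
      linear_combination h3

/-- the change of coordinates `x ↦ x + e` -/
noncomputable def sh {A B e a b : F} (ha : a = 3 * e) (hb : b = 3 * e ^ 2 + A)
    (he : e ^ 3 + A * e + B = 0) : (E a b).Point → (crv A B).toAffine.Point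
  | .zero => 0
  | .some x y h => .some (x + e) y (sh_ns ha hb he h)

theorem c_negY {A B x y : F} : (crv A B).toAffine.negY x y = -y := by
  simp only [Affine.negY, crv, WeierstrassCurve.toAffine]
  ring

theorem sh_slope {A B e a b : F} (ha : a = 3 * e) (hb : b = 3 * e ^ 2 + A) {x1 x2 y1 y2 : F}
    (hc : ¬(x1 = x2 ∧ y1 = (E a b).negY x2 y2)) :
    (crv A B).toAffine.slope (x1 + e) (x2 + e) y1 y2 = (E a b).slope x1 x2 y1 y2 := by
  by_cases hx : x1 = x2
  · have hy : y1 ≠ (E a b).negY x2 y2 := fun h => hc ⟨hx, h⟩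
    have hy' : y1 ≠ (crv A B).toAffine.negY (x2 + e) y2 := by
      rw [c_negY]
      rwa [E_negY] at hy
    rw [slope_of_Y_ne hx hy, slope_of_Y_ne (by rw [hx]) hy', c_negY, E_negY]
    simp only [E, crv, WeierstrassCurve.toAffine]
    congr 1
    rw [ha, hb]
    ring
  · have hx' : x1 + e ≠ x2 + e := fun h => hx (add_right_cancel h)
    rw [slope_of_X_ne hx, slope_of_X_ne hx']
    congr 1
    ring

theorem sh_add {A B e a b : F} (ha : a = 3 * e) (hb : b = 3 * e ^ 2 + A)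
    (he : e ^ 3 + A * e + B = 0) (P Q : (E a b).Point) :
    sh ha hb he (P + Q) = sh ha hb he P + sh ha hb he Q := by
  rcases P with _ | ⟨x1, y1, h1⟩
  · rw [← Point.zero_def, zero_add]
    change _ = 0 + sh ha hb he Q
    rw [zero_add]
  rcases Q with _ | ⟨x2, y2, h2⟩
  · rw [← Point.zero_def, add_zero]
    change _ = sh ha hb he _ + 0
    rw [add_zero]
  by_cases hc : x1 = x2 ∧ y1 = (E a b).negY x2 y2
  · rw [Point.add_of_Y_eq hc.1 hc.2]
    change (0 : (crv A B).toAffine.Point) = Point.some (x1 + e) y1 _ + Point.some (x2 + e) y2 _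
    symm
    apply Point.add_of_Y_eq
    · rw [hc.1]
    · rw [c_negY, hc.2, E_negY]
  · have hc' : ¬(x1 + e = x2 + e ∧ y1 = (crv A B).toAffine.negY (x2 + e) y2) := by
      rintro ⟨h3, h4⟩
      apply hc
      refine ⟨add_right_cancel h3, ?_⟩
      rw [E_negY]
      rw [c_negY] at h4
      exact h4
    rw [Point.add_some hc]
    change Point.some ((E a b).addX x1 x2 ((E a b).slope x1 x2 y1 y2) + e) _ _ =
      Point.some (x1 + e) y1 _ + Point.some (x2 + e) y2 _
    rw [Point.add_some hc']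
    have hs := sh_slope (A := A) (B := B) ha hb hc
    have hX : (E a b).addX x1 x2 ((E a b).slope x1 x2 y1 y2) + e =
        (crv A B).toAffine.addX (x1 + e) (x2 + e)
          ((crv A B).toAffine.slope (x1 + e) (x2 + e) y1 y2) := by
      rw [hs]
      simp only [E, crv, WeierstrassCurve.toAffine, addX]
      rw [ha]
      ring
    simp only [Point.some.injEq]
    refine ⟨hX, ?_⟩
    rw [addY, addY, negAddY, negAddY, ← hX, E_negY, c_negY, hs]
    ring

theorem sh_surj {A B e a b : F} (ha : a = 3 * e) (hb : b = 3 * e ^ 2 + A)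
    (he : e ^ 3 + A * e + B = 0) (hΔ : (E a b).Δ ≠ 0) (P : (crv A B).toAffine.Point) :
    ∃ Q, sh ha hb he Q = P := by
  rcases P with _ | ⟨x, y, h⟩
  · exact ⟨0, rfl⟩
  · have hE := equation_iff.1 h.1
    have hE' : y ^ 2 = (x - e) ^ 3 + a * (x - e) ^ 2 + b * (x - e) := by
      rw [hE, ha, hb]
      linear_combination he
    refine ⟨.some (x - e) y (E_ns hΔ hE'), ?_⟩
    change Point.some (x - e + e) y _ = _
    simp only [Point.some.injEq]
    exact ⟨by ring, trivial⟩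

/-- **The rank of a curve with a point of order two.** -/
theorem rank_red (F : Type) [Field F] [NumberField F] : ∃ M : ℕ, ∀ A B e : 𝓞 F,
    4 * A ^ 3 + 27 * B ^ 2 ≠ 0 → e ^ 3 + A * e + B = 0 →
    (3 * e ^ 2 + A ≠ 0 ∧ -(3 * e ^ 2 + 4 * A) ≠ 0) ∧
    2 ^ Module.finrank ℤ (crv (A : F) (B : F)).toAffine.Point ≤
      M * 2 ^ ((bS ((3 * e ^ 2 + A : 𝓞 F) : F)).ncard +
        (bS ((-(3 * e ^ 2 + 4 * A) : 𝓞 F) : F)).ncard) := by
  obtain ⟨M, hM⟩ := desc2 F
  refine ⟨M, fun A B e hd he => ?_⟩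
  have hB : B = -(e ^ 3 + A * e) := by linear_combination he
  have hdd : 4 * A ^ 3 + 27 * B ^ 2 = (3 * e ^ 2 + A) ^ 2 * (3 * e ^ 2 + 4 * A) := by
    rw [hB]
    ring
  have h1 : 3 * e ^ 2 + A ≠ 0 := by
    intro h
    apply hd
    rw [hdd, h]
    ring
  have h2 : 3 * e ^ 2 + 4 * A ≠ 0 := by
    intro h
    apply hd
    rw [hdd, h]
    ring
  refine ⟨⟨h1, neg_ne_zero.2 h2⟩, ?_⟩
  have c3 : ((3 : 𝓞 F) : F) = 3 := map_ofNat (algebraMap (𝓞 F) F) 3
  have c4 : ((4 : 𝓞 F) : F) = 4 := map_ofNat (algebraMap (𝓞 F) F) 4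
  have c27 : ((27 : 𝓞 F) : F) = 27 := map_ofNat (algebraMap (𝓞 F) F) 27
  have ea : ((3 * e : 𝓞 F) : F) = 3 * (e : F) := by rw [cmul, c3]
  have eb : ((3 * e ^ 2 + A : 𝓞 F) : F) = 3 * (e : F) ^ 2 + (A : F) := by
    rw [cadd, cmul, cpow, c3]
  have ec : ((-(3 * e ^ 2 + 4 * A) : 𝓞 F) : F) =
      ((3 * e : 𝓞 F) : F) ^ 2 - 4 * ((3 * e ^ 2 + A : 𝓞 F) : F) := by
    rw [ea, eb, cneg, cadd, cmul, cmul, cpow, c3, c4]
    ring
  have heF : (e : F) ^ 3 + (A : F) * (e : F) + (B : F) = 0 := by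
    rw [← cpow, ← cmul, ← cadd, ← cadd, he, czero]
  have n1 : ((3 * e ^ 2 + A : 𝓞 F) : F) ≠ 0 := by
    intro h
    exact h1 (cinj h)
  have n2 : ((-(3 * e ^ 2 + 4 * A) : 𝓞 F) : F) ≠ 0 := by
    intro h
    exact neg_ne_zero.2 h2 (cinj h)
  have hΔ : (E ((3 * e : 𝓞 F) : F) ((3 * e ^ 2 + A : 𝓞 F) : F)).Δ ≠ 0 := by
    rw [delta_iff]
    exact ⟨n1, by rw [← ec]; exact n2⟩
  obtain ⟨U, hUc, hU⟩ := hM (3 * e) (3 * e ^ 2 + A) hΔ
  rw [← ec] at hUc
  have hab : 4 * (A : F) ^ 3 + 27 * (B : F) ^ 2 ≠ 0 := by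
    intro h
    apply hd
    apply cinj
    rw [cadd, cmul, cmul, cpow, cpow, c4, c27]
    exact h
  refine (Pool.Agent.Y155.QT14.two_pow_finrank_le _ (mw F _ _ hab)
    (U.image (sh ea eb heF)) ?_).trans (Finset.card_image_le.trans hUc)
  intro P
  obtain ⟨P', rfl⟩ := sh_surj ea eb heF hΔ P
  obtain ⟨u, hu, Q, hQ⟩ := hU P'
  refine ⟨_, Finset.mem_image_of_mem _ hu, sh ea eb heF Q, ?_⟩
  rw [hQ, sh_add, sh_add]

/-- the number of primes dividing an integer -/
theorem omega_le (F : Type) [Field F] [NumberField F] : ∃ M : ℕ, ∀ n : 𝓞 F, n ≠ 0 →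
    16 ^ (bS (n : F)).ncard ≤ M * Ideal.absNorm (Ideal.span {n}) := by
  have hfin : {v : HeightOneSpectrum (𝓞 F) | Ideal.absNorm v.asIdeal ≤ 15}.Finite := by
    refine Set.Finite.of_finite_image (f := fun v : HeightOneSpectrum (𝓞 F) => v.asIdeal) ?_
      (fun v _ w _ h => HeightOneSpectrum.ext h)
    refine (Ideal.finite_setOf_absNorm_le (S := 𝓞 F) 15).subset ?_
    rintro _ ⟨v, hv, rfl⟩
    exact hv
  refine ⟨16 ^ {v : HeightOneSpectrum (𝓞 F) | Ideal.absNorm v.asIdeal ≤ 15}.ncard, fun n hn => ?_⟩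
  have hnF : (n : F) ≠ 0 := by
    intro h
    exact hn (cinj h)
  have hS : (bS (n : F)).Finite := Pool.Agent.H437R2.Man.MW.finite_val_ne_one _ hnF
  have hmem : ∀ v ∈ bS (n : F), n ∈ v.asIdeal := by
    intro v hv
    by_contra h
    exact hv ((v.valuation_eq_one_iff_notMem (K := F)).2 h)
  let S1 : Finset (HeightOneSpectrum (𝓞 F)) := hS.toFinset.filter
    (fun v => ¬ Ideal.absNorm v.asIdeal ≤ 15)
  have hsub : bS (n : F) ⊆ {v : HeightOneSpectrum (𝓞 F) | Ideal.absNorm v.asIdeal ≤ 15} ∪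
      (S1 : Set (HeightOneSpectrum (𝓞 F))) := by
    intro v hv
    by_cases h : Ideal.absNorm v.asIdeal ≤ 15
    · exact Or.inl h
    · right
      simp only [S1, Finset.coe_filter, Set.Finite.mem_toFinset, Set.mem_setOf_eq]
      exact ⟨hv, h⟩
  have hcard : (bS (n : F)).ncard ≤
      {v : HeightOneSpectrum (𝓞 F) | Ideal.absNorm v.asIdeal ≤ 15}.ncard + S1.card := by
    refine (Set.ncard_le_ncard hsub (hfin.union (Finset.finite_toSet _))).trans ?_
    refine (Set.ncard_union_le _ _).trans ?_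
    rw [Set.ncard_coe_finset]
  have hprod : (∏ v ∈ S1, v.asIdeal) ∣ Ideal.span {n} := by
    refine Finset.prod_dvd_of_coprime ?_ ?_
    · intro v hv w hw hvw
      have : v.asIdeal ≠ w.asIdeal := fun h => hvw (HeightOneSpectrum.ext h)
      exact Ideal.isCoprime_of_isMaximal this
    · intro v hv
      rw [Ideal.dvd_span_singleton]
      apply hmem
      simp only [S1, Finset.mem_filter, Set.Finite.mem_toFinset] at hv
      exact hv.1
  have h16 : 16 ^ S1.card ≤ Ideal.absNorm (Ideal.span {n}) := by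
    have h1 : Ideal.absNorm (∏ v ∈ S1, v.asIdeal) ∣ Ideal.absNorm (Ideal.span {n}) :=
      Ideal.absNorm_dvd_absNorm_of_le (Ideal.dvd_iff_le.1 hprod)
    have h2 : Ideal.absNorm (Ideal.span {n}) ≠ 0 := by
      rw [Ne, Ideal.absNorm_eq_zero_iff, Ideal.span_singleton_eq_bot]
      exact hn
    refine le_trans ?_ (Nat.le_of_dvd (Nat.pos_of_ne_zero h2) h1)
    rw [map_prod]
    refine Finset.pow_card_le_prod _ _ _ fun v hv => ?_
    simp only [S1, Finset.mem_filter] at hv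
    omega
  calc 16 ^ (bS (n : F)).ncard ≤
        16 ^ ({v : HeightOneSpectrum (𝓞 F) | Ideal.absNorm v.asIdeal ≤ 15}.ncard + S1.card) :=
        Nat.pow_le_pow_right (by norm_num) hcard
    _ = 16 ^ {v : HeightOneSpectrum (𝓞 F) | Ideal.absNorm v.asIdeal ≤ 15}.ncard *
        16 ^ S1.card := pow_add _ _ _
    _ ≤ _ := Nat.mul_le_mul_left _ h16

end shift

end Pool.Agent.P8H15.BR
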