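import Pool.Agent.P8H15.BR.Pts
import Pool.Agent.P8H15.BR.Red
import Pool.Agent.N783.PF.Final

/-!
# The sum of `2 ^ rank` over all curves of bounded height
-/

set_option autoImplicit false
set_option linter.all false

open Polynomial Matrix NumberField IsDedekindDomain WeierstrassCurve
open scoped Classical

namespace Pool.Agent.P8H15.BR

open Pool.Agent.N783.PF
open Pool.Agent.N352.PJ (Mt Typ dd)
open Pool.Agent.N783.PQ (chp form Dist Gap Mid Deep eA eB eU uu)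
open Pool.Agent.N438.PF (norm_le norm_pos)
open Pool.Agent.K4H55.BD (crv mw)
open Pool.Agent.N61.PF (pol pol_coeff0 pol_coeff1 pol_coeff2 pol_monic pol_natDegree)

section

variable {F : Type} [Field F] [NumberField F]

/-- the rank -/
noncomputable def rk (p : 𝓞 F × 𝓞 F) : ℕ :=
  Module.finrank ℤ (crv (p.1 : F) (p.2 : F)).toAffine.Point

/-- the curves of height at most `B` -/
structure TT (B : ℕ) (p : 𝓞 F × 𝓞 F) : Prop where
  ha : Bd (p.1 : F) ((B : ℝ) ^ 2)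
  hb : Bd (p.2 : F) ((B : ℝ) ^ 3)
  disc : 4 * p.1 ^ 3 + 27 * p.2 ^ 2 ≠ 0

theorem exists_root {a b : 𝓞 F} (h : ¬ Irreducible (fF (pol a b))) :
    ∃ e : 𝓞 F, e ^ 3 + a * e + b = 0 := by
  have hmon : (fF (pol a b)).Monic := (pol_monic a b).map _
  have hdeg : (fF (pol a b)).natDegree = 3 := by
    rw [(pol_monic a b).natDegree_map, pol_natDegree]
  have h1 : (fF (pol a b)).roots ≠ 0 := by
    intro h0
    exact h ((hmon.irreducible_iff_roots_eq_zero_of_degree_le_three (by rw [hdeg]; norm_num)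
      (by rw [hdeg])).2 h0)
  obtain ⟨x, hx⟩ := Multiset.exists_mem_of_ne_zero h1
  rw [mem_roots hmon.ne_zero, IsRoot.def] at hx
  have hx2 : x ^ 3 + (a : F) * x + (b : F) = 0 := by
    have : (fF (pol a b)).eval x = x ^ 3 + (a : F) * x + (b : F) := by
      simp [fF, pol]
    rw [← this, hx]
  have hint : IsIntegral (𝓞 F) x := ⟨pol a b, pol_monic a b, by
    rw [eval₂_eq_eval_map]
    exact hx⟩
  obtain ⟨e, he⟩ := IsIntegrallyClosed.isIntegral_iff.1 hint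
  refine ⟨e, cinj ?_⟩
  rw [cadd, cadd, cmul, cpow, ← calg e, he]
  exact hx2

theorem root_le {B : ℕ} {a b e : 𝓞 F} (ha : Bd (a : F) ((B : ℝ) ^ 2))
    (hb : Bd (b : F) ((B : ℝ) ^ 3)) (he : e ^ 3 + a * e + b = 0) : Bd (e : F) (2 * (B : ℝ)) := by
  intro σ
  have h1 : (e : F) ^ 3 = -((a : F) * (e : F) + (b : F)) := by
    have : ((e ^ 3 + a * e + b : 𝓞 F) : F) = 0 := by rw [he, czero]
    rw [cadd, cadd, cmul, cpow] at this
    linear_combination this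
  have h2 : ‖σ (e : F)‖ ^ 3 ≤ (B : ℝ) ^ 2 * ‖σ (e : F)‖ + (B : ℝ) ^ 3 := by
    rw [← norm_pow, ← map_pow, h1, map_neg, norm_neg, map_add, map_mul]
    refine (norm_add_le _ _).trans (add_le_add ?_ (hb σ))
    rw [norm_mul]
    exact mul_le_mul_of_nonneg_right (ha σ) (norm_nonneg _)
  by_contra hcon
  rw [not_le] at hcon
  obtain ⟨t, ht⟩ : ∃ t : ℝ, t = ‖σ (e : F)‖ := ⟨_, rfl⟩
  rw [← ht] at h2 hcon
  have hB : (0 : ℝ) ≤ B := Nat.cast_nonneg _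
  have ht0 : 0 < t := lt_of_le_of_lt (by positivity) hcon
  have h3 : 4 * (B : ℝ) ^ 2 ≤ t ^ 2 := by nlinarith
  have h4 : 4 * (B : ℝ) ^ 2 * t ≤ t ^ 3 := by nlinarith
  have h5 : (B : ℝ) ^ 2 * t ≤ (B : ℝ) ^ 3 / 3 := by linarith
  have h6 : (B : ℝ) ^ 2 * (2 * B) ≤ (B : ℝ) ^ 2 * t := mul_le_mul_of_nonneg_left hcon.le (by positivity)
  have h7 : (B : ℝ) ^ 3 ≤ 0 := by nlinarith
  have h8 : (B : ℝ) = 0 := by
    by_contra hne
    have : 0 < (B : ℝ) := lt_of_le_of_ne hB (Ne.symm hne)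
    have : 0 < (B : ℝ) ^ 3 := by positivity
    linarith
  rw [h8] at h2
  have h9 : t ^ 3 ≤ 0 := by
    rw [zero_pow two_ne_zero, zero_mul, zero_pow three_ne_zero, add_zero] at h2
    exact h2
  have : 0 < t ^ 3 := by positivity
  linarith

theorem bd_lin {x y : 𝓞 F} {R R' : ℝ} (m n : ℕ) (hx : Bd (x : F) R) (hy : Bd (y : F) R') :
    Bd (((m : 𝓞 F) * x + (n : 𝓞 F) * y : 𝓞 F) : F) (m * R + n * R') := by
  intro σ
  have e : (((m : 𝓞 F) * x + (n : 𝓞 F) * y : 𝓞 F) : F) = (m : F) * (x : F) + (n : F) * (y : F) := by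
    rw [cadd, cmul, cmul]
    have h1 : (((m : 𝓞 F)) : F) = (m : F) := map_natCast (algebraMap (𝓞 F) F) m
    have h2 : (((n : 𝓞 F)) : F) = (n : F) := map_natCast (algebraMap (𝓞 F) F) n
    rw [h1, h2]
  rw [e, map_add, map_mul, map_mul, map_natCast, map_natCast]
  refine (norm_add_le _ _).trans (add_le_add ?_ ?_)
  · rw [norm_mul, Complex.norm_natCast]
    exact mul_le_mul_of_nonneg_left (hx σ) (Nat.cast_nonneg _)
  · rw [norm_mul, Complex.norm_natCast]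
    exact mul_le_mul_of_nonneg_left (hy σ) (Nat.cast_nonneg _)

end

/-- the curves with a rational point of order two -/
theorem red_rank (F : Type) [Field F] [NumberField F] : ∃ K : ℕ, ∀ (B : ℕ) (p : 𝓞 F × 𝓞 F),
    TT B p → ¬ Irreducible (fF (pol p.1 p.2)) → 2 ^ rk p ≤ K * B ^ Module.finrank ℚ F := by
  obtain ⟨M1, hM1⟩ := rank_red F
  obtain ⟨M2, hM2⟩ := omega_le F
  obtain ⟨D, hD⟩ : ∃ D, D = Module.finrank ℚ F := ⟨_, rfl⟩
  rw [← hD]
  refine ⟨M1 * (M2 * 16 ^ D), fun B p hp hirr => ?_⟩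
  obtain ⟨e, he⟩ := exists_root hirr
  have hbe := root_le hp.ha hp.hb he
  obtain ⟨⟨hn1, hn2⟩, hr⟩ := hM1 p.1 p.2 e hp.disc he
  obtain ⟨s1, hs1⟩ : ∃ s1, s1 = (bS ((3 * e ^ 2 + p.1 : 𝓞 F) : F)).ncard := ⟨_, rfl⟩
  obtain ⟨s2, hs2⟩ : ∃ s2, s2 = (bS ((-(3 * e ^ 2 + 4 * p.1) : 𝓞 F) : F)).ncard := ⟨_, rfl⟩
  have w1 := hM2 _ hn1
  have w2 := hM2 _ hn2
  rw [← hs1] at w1 hr
  rw [← hs2] at w2 hr
  have he2 : Bd ((e ^ 2 : 𝓞 F) : F) (4 * (B : ℝ) ^ 2) := by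
    intro σ
    rw [cpow, map_pow, norm_pow]
    have := pow_le_pow_left₀ (norm_nonneg _) (hbe σ) 2
    calc ‖σ (e : F)‖ ^ 2 ≤ (2 * (B : ℝ)) ^ 2 := this
      _ = _ := by ring
  have b1 : Bd ((3 * e ^ 2 + p.1 : 𝓞 F) : F) (16 * (B : ℝ) ^ 2) := by
    have h := bd_lin 3 1 he2 hp.ha
    intro σ
    have h2 := h σ
    push_cast at h2
    rw [one_mul, one_mul] at h2
    refine h2.trans ?_
    nlinarith [sq_nonneg (B : ℝ)]
  have b2 : Bd ((-(3 * e ^ 2 + 4 * p.1) : 𝓞 F) : F) (16 * (B : ℝ) ^ 2) := by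
    have h := bd_lin 3 4 he2 hp.ha
    intro σ
    rw [cneg, map_neg, norm_neg]
    have h2 := h σ
    push_cast at h2
    refine h2.trans ?_
    nlinarith [sq_nonneg (B : ℝ)]
  have n1 := norm_le _ b1
  have n2 := norm_le _ b2
  rw [← hD] at n1 n2
  have n1' : Ideal.absNorm (Ideal.span {(3 * e ^ 2 + p.1 : 𝓞 F)}) ≤ (16 * B ^ 2) ^ D := by
    exact_mod_cast n1
  have n2' : Ideal.absNorm (Ideal.span {(-(3 * e ^ 2 + 4 * p.1) : 𝓞 F)}) ≤ (16 * B ^ 2) ^ D := by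
    exact_mod_cast n2
  have hM2pos : 1 ≤ M2 := by
    rcases Nat.eq_zero_or_pos M2 with h | h
    · exfalso
      rw [h, zero_mul] at w1
      have : 0 < 16 ^ s1 := by positivity
      omega
    · exact h
  have hz : (2 ^ (s1 + s2)) ^ 4 ≤ (M2 * 16 ^ D * B ^ D) ^ 4 := by
    calc (2 ^ (s1 + s2)) ^ 4 = 16 ^ s1 * 16 ^ s2 := by
          rw [← pow_mul, mul_comm, pow_mul]
          norm_num
          rw [pow_add]
      _ ≤ (M2 * (16 * B ^ 2) ^ D) * (M2 * (16 * B ^ 2) ^ D) :=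
          Nat.mul_le_mul (w1.trans (Nat.mul_le_mul_left _ n1'))
            (w2.trans (Nat.mul_le_mul_left _ n2'))
      _ = M2 ^ 2 * 16 ^ (2 * D) * B ^ (4 * D) := by
          rw [mul_pow, ← pow_mul]
          ring
      _ ≤ M2 ^ 4 * 16 ^ (4 * D) * B ^ (4 * D) := by
          refine Nat.mul_le_mul_right _ (Nat.mul_le_mul ?_ ?_)
          · exact Nat.pow_le_pow_right hM2pos (by norm_num)
          · exact Nat.pow_le_pow_right (by norm_num) (by omega)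
      _ = _ := by
          rw [mul_pow, mul_pow, ← pow_mul, ← pow_mul]
          ring
  have hz' : 2 ^ (s1 + s2) ≤ M2 * 16 ^ D * B ^ D :=
    (Nat.pow_le_pow_iff_left (by norm_num : (4 : ℕ) ≠ 0)).1 hz
  calc 2 ^ rk p ≤ M1 * 2 ^ (s1 + s2) := hr
    _ ≤ M1 * (M2 * 16 ^ D * B ^ D) := Nat.mul_le_mul_left _ hz'
    _ = _ := by ring

theorem tt_ht {F : Type} [Field F] [NumberField F] {B : ℕ} {p : 𝓞 F × 𝓞 F} (h : TT B p) :
    Ht 1 B (pol p.1 p.2) := Pool.Agent.N61.PF.ht_pol h.ha h.hb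

/-- the number of the curves -/
theorem tt_count (h0 : S_PTS) (F : Type) [Field F] [NumberField F] : ∃ C : ℕ, ∀ B : ℕ, 1 ≤ B →
    {p : 𝓞 F × 𝓞 F | TT B p}.Finite ∧
    {p : 𝓞 F × 𝓞 F | TT B p}.ncard ≤ C * B ^ (5 * Module.finrank ℚ F) ∧
    {p : 𝓞 F × 𝓞 F | TT B p ∧ ¬ Irreducible (fF (pol p.1 p.2))}.ncard ≤
      C * B ^ (3 * Module.finrank ℚ F) := by
  obtain ⟨-, C, hC, -, h2⟩ := h0 F
  obtain ⟨D, hD⟩ : ∃ D, D = Module.finrank ℚ F := ⟨_, rfl⟩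
  rw [← hD] at h2 ⊢
  -- boxes
  have hbox : ∀ R : ℝ, 1 ≤ R → {a : 𝓞 F | Bd (a : F) R}.Finite ∧
      ({a : 𝓞 F | Bd (a : F) R}.ncard : ℝ) ≤ 2 * C * R ^ D := by
    intro R hR
    obtain ⟨f1, n1⟩ := h2 ⊤ 0 R top_ne_bot (by linarith)
    have e : {a : 𝓞 F | a - 0 ∈ (⊤ : Ideal (𝓞 F)) ∧ Bd (a : F) R} = {a : 𝓞 F | Bd (a : F) R} := by
      ext a
      simp
    rw [e] at f1 n1
    refine ⟨f1, n1.trans ?_⟩
    rw [Ideal.absNorm_top, Nat.cast_one, div_one]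
    have : 1 ≤ R ^ D := one_le_pow₀ hR
    nlinarith
  refine ⟨⌈2 * C * (2 * C)⌉₊ + ⌈2 * C * (2 * C * 2 ^ D)⌉₊, fun B hB => ?_⟩
  have hB1 : (1 : ℝ) ≤ B := by exact_mod_cast hB
  obtain ⟨f2, n2⟩ := hbox ((B : ℝ) ^ 2) (one_le_pow₀ hB1)
  obtain ⟨f3, n3⟩ := hbox ((B : ℝ) ^ 3) (one_le_pow₀ hB1)
  obtain ⟨f1, n1⟩ := hbox (2 * (B : ℝ)) (by linarith)
  have hsub : {p : 𝓞 F × 𝓞 F | TT B p} ⊆ {a : 𝓞 F | Bd (a : F) ((B : ℝ) ^ 2)} ×ˢ
      {a : 𝓞 F | Bd (a : F) ((B : ℝ) ^ 3)} := fun p hp => ⟨hp.ha, hp.hb⟩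
  have hfin := (f2.prod f3).subset hsub
  refine ⟨hfin, ?_, ?_⟩
  · have h3 := Set.ncard_le_ncard hsub (f2.prod f3)
    rw [Set.ncard_prod] at h3
    have h4 : ({p : 𝓞 F × 𝓞 F | TT B p}.ncard : ℝ) ≤
        ((⌈2 * C * (2 * C)⌉₊ + ⌈2 * C * (2 * C * 2 ^ D)⌉₊ : ℕ) : ℝ) * (B : ℝ) ^ (5 * D) := by
      calc ({p : 𝓞 F × 𝓞 F | TT B p}.ncard : ℝ) ≤
          ({a : 𝓞 F | Bd (a : F) ((B : ℝ) ^ 2)}.ncard : ℝ) *
            ({a : 𝓞 F | Bd (a : F) ((B : ℝ) ^ 3)}.ncard : ℝ) := by exact_mod_cast h3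
        _ ≤ (2 * C * ((B : ℝ) ^ 2) ^ D) * (2 * C * ((B : ℝ) ^ 3) ^ D) :=
            mul_le_mul n2 n3 (Nat.cast_nonneg _) (by positivity)
        _ = (2 * C * (2 * C)) * (B : ℝ) ^ (5 * D) := by
            rw [← pow_mul, ← pow_mul]
            have : 5 * D = 2 * D + 3 * D := by ring
            rw [this, pow_add]
            ring
        _ ≤ _ := by
            refine mul_le_mul_of_nonneg_right ?_ (by positivity)
            refine (Nat.le_ceil _).trans ?_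
            push_cast
            linarith [Nat.cast_nonneg (α := ℝ) ⌈2 * C * (2 * C * 2 ^ D)⌉₊]
    exact_mod_cast h4
  · -- the pairs `(a, e)`
    have hch : ∀ p : 𝓞 F × 𝓞 F, ∃ e : 𝓞 F, (TT B p ∧ ¬ Irreducible (fF (pol p.1 p.2))) →
        e ^ 3 + p.1 * e + p.2 = 0 := by
      intro p
      by_cases h : TT B p ∧ ¬ Irreducible (fF (pol p.1 p.2))
      · obtain ⟨e, he⟩ := exists_root h.2
        exact ⟨e, fun _ => he⟩
      · exact ⟨0, fun h' => absurd h' h⟩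
    choose ε hε using hch
    have h3 := Set.ncard_le_ncard_of_injOn (fun p : 𝓞 F × 𝓞 F => (p.1, ε p))
      (s := {p : 𝓞 F × 𝓞 F | TT B p ∧ ¬ Irreducible (fF (pol p.1 p.2))})
      (t := {a : 𝓞 F | Bd (a : F) ((B : ℝ) ^ 2)} ×ˢ {a : 𝓞 F | Bd (a : F) (2 * (B : ℝ))})
      (fun p hp => ⟨hp.1.ha, root_le hp.1.ha hp.1.hb (hε p hp)⟩)
      (by
        intro p hp p' hp' h
        have e1 := congrArg Prod.fst h
        have e2 := congrArg Prod.snd h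
        simp only at e1 e2
        have h4 := hε p hp
        have h5 := hε p' hp'
        refine Prod.ext e1 ?_
        rw [e1, e2] at h4
        linear_combination h4 - h5) (f2.prod f1)
    rw [Set.ncard_prod] at h3
    have h4 : ({p : 𝓞 F × 𝓞 F | TT B p ∧ ¬ Irreducible (fF (pol p.1 p.2))}.ncard : ℝ) ≤
        ((⌈2 * C * (2 * C)⌉₊ + ⌈2 * C * (2 * C * 2 ^ D)⌉₊ : ℕ) : ℝ) * (B : ℝ) ^ (3 * D) := by
      calc ({p : 𝓞 F × 𝓞 F | TT B p ∧ ¬ Irreducible (fF (pol p.1 p.2))}.ncard : ℝ) ≤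
          ({a : 𝓞 F | Bd (a : F) ((B : ℝ) ^ 2)}.ncard : ℝ) *
            ({a : 𝓞 F | Bd (a : F) (2 * (B : ℝ))}.ncard : ℝ) := by exact_mod_cast h3
        _ ≤ (2 * C * ((B : ℝ) ^ 2) ^ D) * (2 * C * (2 * (B : ℝ)) ^ D) :=
            mul_le_mul n2 n1 (Nat.cast_nonneg _) (by positivity)
        _ = (2 * C * (2 * C * 2 ^ D)) * (B : ℝ) ^ (3 * D) := by
            rw [← pow_mul, mul_pow]
            have : 3 * D = 2 * D + D := by ring
            rw [this, pow_add]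
            ring
        _ ≤ _ := by
            refine mul_le_mul_of_nonneg_right ?_ (by positivity)
            refine (Nat.le_ceil _).trans ?_
            push_cast
            linarith [Nat.cast_nonneg (α := ℝ) ⌈2 * C * (2 * C)⌉₊]
    exact_mod_cast h4

theorem exists_N (m : ℕ) (hm : 1 ≤ m) : ∃ N : ℕ, m ≤ 4 ^ N ∧ 4 ^ N ≤ 4 * m := by
  have hex : ∃ N : ℕ, m ≤ 4 ^ N := ⟨m, (Nat.lt_pow_self (by norm_num)).le⟩
  refine ⟨Nat.find hex, Nat.find_spec hex, ?_⟩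
  rcases Nat.eq_zero_or_pos (Nat.find hex) with h | h
  · rw [h]
    omega
  · have h1 := Nat.find_min hex (Nat.sub_lt h one_pos)
    rw [not_le] at h1
    have h2 : 4 ^ Nat.find hex = 4 ^ (Nat.find hex - 1) * 4 := by
      rw [← pow_succ]
      congr 1
      omega
    rw [h2]
    omega

/-- **The sum of `2 ^ rank`.** -/
theorem sum_le (F : Type) [Field F] [NumberField F] : ∃ C B₀ : ℕ, 1 ≤ B₀ ∧ ∀ B ≥ B₀,
    ∀ T : Finset (𝓞 F × 𝓞 F), (∀ p ∈ T, TT B p) →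
    ∑ p ∈ T, 2 ^ rk p ≤ C * B ^ (5 * Module.finrank ℚ F) := by
  have hpts := Pool.Agent.N490.PF.pts
  obtain ⟨κ, hκ⟩ := rank_le Pool.Agent.N783.PF.typ Pool.Agent.N707.PF.MAJ.maj
    Pool.Agent.N614.PF.chi Pool.Agent.N482.PF.sq Pool.Agent.N667.PF.gen F
  obtain ⟨C1, W, hC1⟩ := badc hpts
    (Pool.Agent.N456.PF.pb hpts Pool.Agent.N42.PF.cqa Pool.Agent.N42.PF.cqb)
    (Pool.Agent.N456.PF.pb0 hpts) F 1 κ le_rfl
  obtain ⟨N₀, hN₀⟩ := hC1 W ∅ (fun _ => ⊥) (fun _ => 0) (fun _ => 0) le_rfl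
    (fun q hq => absurd hq (Finset.notMem_empty q))
  obtain ⟨C2, hC2⟩ := tt_count hpts F
  obtain ⟨K, hK⟩ := red_rank F
  obtain ⟨D, hD⟩ : ∃ D, D = Module.finrank ℚ F := ⟨_, rfl⟩
  rw [← hD] at hC2 hK hN₀ ⊢
  refine ⟨C2 + C1 * (4 * 2 ^ κ) ^ (5 * D) + C2 * K, 4 ^ N₀, Nat.one_le_pow _ _ (by norm_num),
    fun B hB T hT => ?_⟩
  have hB1 : 1 ≤ B := le_trans (Nat.one_le_pow _ _ (by norm_num)) hB
  obtain ⟨hfin, hcount, hred⟩ := hC2 B hB1
  obtain ⟨N, hN1, hN2⟩ := exists_N (2 ^ κ * B) (Nat.mul_pos (by positivity) hB1)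
  have hNN : N₀ ≤ N := by
    have : 4 ^ N₀ ≤ 4 ^ N := by
      refine le_trans (hB.trans ?_) hN1
      exact Nat.le_mul_of_pos_left _ (by positivity)
    exact (Nat.pow_le_pow_iff_right (by norm_num)).1 this
  obtain ⟨hCfin, hCcard⟩ := hN₀ N hNN
  rw [Finset.card_empty, pow_zero, Finset.prod_empty, one_pow, one_mul, one_mul] at hCcard
  have hdd : dd 1 = 5 := by unfold dd; norm_num
  rw [hdd] at hCcard
  have hCcard' : {k : Set (Mt 1 F × Mt 1 F) | CBad 1 N κ ∅ (fun _ => ⊥) (fun _ => 0) k}.ncard ≤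
      C1 * (4 * 2 ^ κ) ^ (5 * D) * B ^ (5 * D) := by
    refine hCcard.trans ?_
    rw [mul_assoc C1]
    refine Nat.mul_le_mul_left _ ?_
    have e : 2 ^ (D * (2 * N * 5)) = (4 ^ N) ^ (5 * D) := by
      rw [show (4 : ℕ) = 2 ^ 2 by norm_num, ← pow_mul, ← pow_mul]
      congr 1
      ring
    rw [e, ← mul_pow]
    refine Nat.pow_le_pow_left (hN2.trans (le_of_eq ?_)) _
    ring
  have hKfin : ∀ f : (𝓞 F)[X], (KK N κ f).Finite := fun f => hCfin.subset fun k hk => hk.1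
  -- split
  obtain ⟨T1, hT1⟩ : ∃ T1 : Finset (𝓞 F × 𝓞 F), T1 = T.filter
    (fun p => Irreducible (fF (pol p.1 p.2))) := ⟨_, rfl⟩
  obtain ⟨T2, hT2⟩ : ∃ T2 : Finset (𝓞 F × 𝓞 F), T2 = T.filter
    (fun p => ¬ Irreducible (fF (pol p.1 p.2))) := ⟨_, rfl⟩
  have hsplit : ∑ p ∈ T, 2 ^ rk p = ∑ p ∈ T1, 2 ^ rk p + ∑ p ∈ T2, 2 ^ rk p := by
    rw [hT1, hT2, Finset.sum_filter_add_sum_filter_not]
  have hcardT : T.card ≤ C2 * B ^ (5 * D) := by
    refine le_trans ?_ hcount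
    rw [← Set.ncard_coe_finset]
    exact Set.ncard_le_ncard (fun p hp => hT p hp) hfin
  have hs1 : ∑ p ∈ T1, 2 ^ rk p ≤ T.card +
      {k : Set (Mt 1 F × Mt 1 F) | CBad 1 N κ ∅ (fun _ => ⊥) (fun _ => 0) k}.ncard := by
    have h1 : ∀ p ∈ T1, 2 ^ rk p ≤ 1 + ((hKfin (pol p.1 p.2)).toFinset).card := by
      intro p hp
      rw [hT1, Finset.mem_filter] at hp
      have h2 := hκ p.1 p.2 B N (tt_ht (hT p hp.1)) hp.2 hN1 (hKfin _)
      rw [Set.ncard_eq_toFinset_card _ (hKfin _)] at h2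
      exact h2
    refine (Finset.sum_le_sum h1).trans ?_
    rw [Finset.sum_add_distrib, Finset.sum_const, smul_eq_mul, mul_one]
    refine Nat.add_le_add (by rw [hT1]; exact Finset.card_filter_le _ _) ?_
    rw [← Finset.card_biUnion (s := T1) (t := fun p => (hKfin (pol p.1 p.2)).toFinset)]
    · rw [Set.ncard_eq_toFinset_card _ hCfin]
      refine Finset.card_le_card ?_
      intro k hk
      rw [Finset.mem_biUnion] at hk
      obtain ⟨p, -, hk⟩ := hk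
      rw [Set.Finite.mem_toFinset] at hk ⊢
      exact hk.1
    · intro p _ q _ hpq
      have hne : pol p.1 p.2 ≠ pol q.1 q.2 := by
        intro h
        apply hpq
        have e1 := congrArg (fun f : (𝓞 F)[X] => f.coeff 1) h
        have e0 := congrArg (fun f : (𝓞 F)[X] => f.coeff 0) h
        simp only [pol_coeff1, pol_coeff0] at e1 e0
        exact Prod.ext e1 e0
      have hd := KK_disj (N := N) (c := κ) hne
      rw [Function.onFun, Finset.disjoint_left]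
      intro k hk hk'
      rw [Set.Finite.mem_toFinset] at hk hk'
      exact Set.disjoint_left.1 hd hk hk'
  have hs2 : ∑ p ∈ T2, 2 ^ rk p ≤ C2 * K * B ^ (5 * D) := by
    have h1 : ∀ p ∈ T2, 2 ^ rk p ≤ K * B ^ D := by
      intro p hp
      rw [hT2, Finset.mem_filter] at hp
      exact hK B p (hT p hp.1) hp.2
    have h2 : T2.card ≤ C2 * B ^ (3 * D) := by
      refine le_trans ?_ hred
      rw [← Set.ncard_coe_finset]
      refine Set.ncard_le_ncard (fun p hp => ?_) (hfin.subset fun p hp => hp.1)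
      rw [hT2, Finset.coe_filter] at hp
      exact ⟨hT p hp.1, hp.2⟩
    calc ∑ p ∈ T2, 2 ^ rk p ≤ ∑ p ∈ T2, K * B ^ D := Finset.sum_le_sum h1
      _ = T2.card * (K * B ^ D) := by rw [Finset.sum_const, smul_eq_mul]
      _ ≤ (C2 * B ^ (3 * D)) * (K * B ^ D) := Nat.mul_le_mul_right _ h2
      _ = C2 * K * B ^ (4 * D) := by
          rw [show 4 * D = 3 * D + D by ring, pow_add]
          ring
      _ ≤ _ := Nat.mul_le_mul_left _ (Nat.pow_le_pow_right hB1 (by omega))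
  calc ∑ p ∈ T, 2 ^ rk p = ∑ p ∈ T1, 2 ^ rk p + ∑ p ∈ T2, 2 ^ rk p := hsplit
    _ ≤ (C2 * B ^ (5 * D) + C1 * (4 * 2 ^ κ) ^ (5 * D) * B ^ (5 * D)) +
        C2 * K * B ^ (5 * D) :=
        Nat.add_le_add (hs1.trans (Nat.add_le_add hcardT hCcard')) hs2
    _ = _ := by ring

end Pool.Agent.P8H15.BR
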